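import Pool.Agent.Q158.F2P.Cnt
import Pool.Agent.Q103.FWS.Base

/-!
# Counting elements with few poles: the counting step
-/

set_option autoImplicit false

namespace Pool.Agent.Q158.F2P

open NumberField IsDedekindDomain Height Pool.Agent.H691R3 Pool.Agent.H951R3.V
open Pool.Agent.Y673.Loc Pool.Agent.Y673.Cnt Pool.Agent.W223.AK
open Pool.Agent.Q237.LT (fa wa mem_wa mem_wa_ext)
open Pool.Agent.Y725.LS (ldeg)

section ext
variable {L M : Type} [Field L] [NumberField L] [Field M] [NumberField M] [Algebra L M]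

/-- the weight of the primes above a set of poles -/
theorem weight_above (j : L) (S : Finset (Pr L)) (hS : S ⊆ wa j)
    [DecidablePred fun w : Pr M => w.under (𝓞 L) ∈ S] :
    ∑ w ∈ (wa (algebraMap L M j)).filter (fun w => w.under (𝓞 L) ∈ S), ell w ≤
      Module.finrank L M * ∑ v ∈ S, ell v := by
  classical
  rw [← Finset.sum_fiberwise_of_maps_to (g := fun w : Pr M => w.under (𝓞 L)) (t := S)
    (fun w hw => (Finset.mem_filter.1 hw).2), Finset.mul_sum]
  refine Finset.sum_le_sum fun v hv => ?_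
  rw [← Pool.Agent.Q103.FWS.sum_ldeg_wa (L := M) j (hS hv)]
  push_cast
  rw [Finset.sum_mul]
  have e : ((wa (algebraMap L M j)).filter (fun w => w.under (𝓞 L) ∈ S)).filter
      (fun w => w.under (𝓞 L) = v) =
      (wa (algebraMap L M j)).filter (fun w => w.under (𝓞 L) = v) := by
    ext w
    simp only [Finset.mem_filter]
    constructor
    · rintro ⟨⟨h1, _⟩, h2⟩
      exact ⟨h1, h2⟩
    · rintro ⟨h1, h2⟩
      exact ⟨⟨h1, by rw [h2]; exact hv⟩, h2⟩
  rw [e]
  refine Finset.sum_le_sum fun w hw => ?_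
  have h := Pool.Agent.Q103.FWS.log_Nv_under (K := L) w
  rwa [(Finset.mem_filter.1 hw).2] at h

end ext

/-- **The counting step.** -/
theorem core (d : ℕ) {ε : ℝ} (hε : 0 < ε) : ∃ A : ℝ, 0 ≤ A ∧
    ∀ (L : Type) [Field L] [NumberField L] (M : Type) [Field M] [NumberField M] [Algebra L M],
      Module.finrank L M ≤ d → ∀ (E : Finset L) (u : L → M) (S : L → Finset (Pr L)) (j : L → L)
      (R₀ : Finset (Pr M)) (Y W B : ℝ), 0 ≤ Y → 0 ≤ W → ∑ w ∈ R₀, ell w ≤ B → Set.InjOn u E →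
      (∀ t ∈ E, u t ≠ 0 ∧ logHeight₁ (u t) ≤ Y ∧ S t ⊆ wa (j t) ∧ ∑ v ∈ S t, ell v ≤ W ∧
        ∀ w, w ∉ R₀ → (adv M w).v (u t) ≠ 0 → w.under (𝓞 L) ∈ S t) →
      (E.card : ℝ) ≤ Real.exp (Module.finrank ℚ L * A + (1 + ε) * W + ε * (Y + B)) := by
  classical
  set δ : ℝ := ε / (2 * (d + 1)) with hδ
  have hδ0 : 0 < δ := by positivity
  obtain ⟨A1, hA1, h1⟩ := ucntR hδ0
  obtain ⟨A2, hA2, h2⟩ := sets_card (half_pos hε)
  refine ⟨A2 + d * A1, by positivity, ?_⟩
  intro L _ _ M _ _ _ hLM E u S j R₀ Y W B hY hW hB hinj hE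
  have hB0 : 0 ≤ B := le_trans (Finset.sum_nonneg fun v _ => (ell_pos v).le) hB
  have hd1 : δ * (d + 1) = ε / 2 := by
    rw [hδ]
    field_simp
  have hdn : (0 : ℝ) ≤ d := Nat.cast_nonneg d
  have hδε : δ ≤ ε := by nlinarith
  have hδd : δ * d ≤ ε / 2 := by nlinarith
  have hfr : (Module.finrank ℚ M : ℝ) ≤ Module.finrank ℚ L * d := by
    rw [← Module.finrank_mul_finrank ℚ L M]
    push_cast
    exact mul_le_mul_of_nonneg_left (by exact_mod_cast hLM) (Nat.cast_nonneg _)
  have hQ : ((E.image S).card : ℝ) ≤ Real.exp (Module.finrank ℚ L * A2 + (1 + ε / 2) * W) := by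
    refine h2 L W _ ?_
    intro T hT
    obtain ⟨t, ht, rfl⟩ := Finset.mem_image.1 hT
    exact (hE t ht).2.2.2.1
  have hfib : ∀ T ∈ E.image S, ((E.filter fun t => S t = T).card : ℝ) ≤
      Real.exp (Module.finrank ℚ L * (d * A1) + (ε / 2 * W + ε * (Y + B))) := by
    intro T hT
    obtain ⟨t₀, ht₀, rfl⟩ := Finset.mem_image.1 hT
    obtain ⟨-, -, hS₀, hW₀, -⟩ := hE t₀ ht₀
    set R : Finset (Pr M) := R₀ ∪
      (wa (algebraMap L M (j t₀))).filter (fun w => w.under (𝓞 L) ∈ S t₀) with hR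
    have hRw : ∑ w ∈ R, ell w ≤ B + d * W := by
      have h3 : ∑ w ∈ R, ell w ≤ ∑ w ∈ R₀, ell w +
          ∑ w ∈ (wa (algebraMap L M (j t₀))).filter (fun w => w.under (𝓞 L) ∈ S t₀), ell w := by
        rw [hR, ← Finset.sum_union_inter]
        have : 0 ≤ ∑ v ∈ R₀ ∩ (wa (algebraMap L M (j t₀))).filter
          (fun w => w.under (𝓞 L) ∈ S t₀), ell v := Finset.sum_nonneg fun v _ => (ell_pos v).le
        linarith
      have h4 := weight_above (M := M) (j t₀) (S t₀) hS₀
      have h5 : (Module.finrank L M : ℝ) * ∑ v ∈ S t₀, ell v ≤ d * W :=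
        mul_le_mul (by exact_mod_cast hLM) hW₀ (Finset.sum_nonneg fun v _ => (ell_pos v).le) hdn
      linarith
    rw [← Finset.card_image_of_injOn (f := u) (hinj.mono (by
      intro t ht
      exact Finset.mem_coe.2 (Finset.mem_filter.1 (Finset.mem_coe.1 ht)).1))]
    refine (h1 M R Y hY _ ?_).trans ?_
    · intro y hy
      obtain ⟨t, ht, rfl⟩ := Finset.mem_image.1 hy
      obtain ⟨ht1, ht2⟩ := Finset.mem_filter.1 ht
      obtain ⟨h3, h4, h5, h6, h7⟩ := hE t ht1
      refine ⟨h3, h4, fun w hw => ?_⟩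
      by_contra hne
      apply hw
      rw [hR, Finset.mem_union]
      by_cases hw0 : w ∈ R₀
      · exact Or.inl hw0
      · right
        have h8 := h7 w hw0 hne
        rw [ht2] at h8
        rw [Finset.mem_filter, mem_wa_ext]
        exact ⟨hS₀ h8, h8⟩
    · apply Real.exp_le_exp.2
      have h3 : (Module.finrank ℚ M : ℝ) * A1 ≤ Module.finrank ℚ L * d * A1 :=
        mul_le_mul_of_nonneg_right hfr hA1
      have h4 : δ * (Y + ∑ v ∈ R, ell v) ≤ δ * (Y + (B + d * W)) :=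
        mul_le_mul_of_nonneg_left (by linarith) hδ0.le
      have h5 : δ * d * W ≤ ε / 2 * W := mul_le_mul_of_nonneg_right hδd hW
      have h6 : δ * (Y + B) ≤ ε * (Y + B) := mul_le_mul_of_nonneg_right hδε (by linarith)
      nlinarith
  have hcard : (E.card : ℝ) = ∑ T ∈ E.image S, ((E.filter fun t => S t = T).card : ℝ) := by
    rw [Finset.card_eq_sum_card_image S E]
    push_cast
    rfl
  rw [hcard]
  calc ∑ T ∈ E.image S, ((E.filter fun t => S t = T).card : ℝ)
      ≤ ∑ _T ∈ E.image S, Real.exp (Module.finrank ℚ L * (d * A1) + (ε / 2 * W + ε * (Y + B))) :=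
        Finset.sum_le_sum hfib
    _ = ((E.image S).card : ℝ) *
        Real.exp (Module.finrank ℚ L * (d * A1) + (ε / 2 * W + ε * (Y + B))) := by
        rw [Finset.sum_const, nsmul_eq_mul]
    _ ≤ Real.exp (Module.finrank ℚ L * A2 + (1 + ε / 2) * W) *
        Real.exp (Module.finrank ℚ L * (d * A1) + (ε / 2 * W + ε * (Y + B))) :=
        mul_le_mul_of_nonneg_right hQ (Real.exp_pos _).le
    _ = _ := by
        rw [← Real.exp_add]
        congr 1
        ring

end Pool.Agent.Q158.F2P
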