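import Mathlib
import Pool.Agent.Y733.LS.Sum

/-!
# Heights of values and of roots of polynomials, uniformly in the polynomial
-/

set_option autoImplicit false
set_option linter.unusedSectionVars false

namespace Pool.Agent.Q158.F2P

open NumberField IsDedekindDomain Polynomial Pool.Agent.H691R3 Pool.Agent.W223.AK
open Pool.Agent.Y733.LS
open Height (logHeight₁ zero_le_logHeight₁)

section pointwise
variable {K : Type} [Field K]

/-- the local height -/
noncomputable def lam (w : AbsoluteValue K ℝ) (x : K) : ℝ := Real.log (max (w x) 1)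

theorem lam_nonneg (w : AbsoluteValue K ℝ) (x : K) : 0 ≤ lam w x :=
  Real.log_nonneg (le_max_right _ _)

theorem le_exp_lam (w : AbsoluteValue K ℝ) (x : K) : w x ≤ Real.exp (lam w x) := by
  unfold lam
  rw [Real.exp_log (lt_of_lt_of_le one_pos (le_max_right _ _))]
  exact le_max_left _ _

theorem lam_le_of {w : AbsoluteValue K ℝ} {x : K} {r : ℝ} (h0 : 0 ≤ r) (h : w x ≤ Real.exp r) :
    lam w x ≤ r := by
  unfold lam
  rw [Real.log_le_iff_le_exp (lt_of_lt_of_le one_pos (le_max_right _ _))]
  exact max_le h (Real.one_le_exp h0)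

theorem term_le (w : AbsoluteValue K ℝ) (P : K[X]) (D : ℕ) (t : K) {i : ℕ} (hi : i ∈ Finset.range (D + 1)) :
    w (P.coeff i * t ^ i) ≤ Real.exp (D * lam w t + ∑ k ∈ Finset.range (D + 1), lam w (P.coeff k)) := by
  rw [map_mul, map_pow, add_comm, Real.exp_add]
  refine mul_le_mul ?_ ?_ (pow_nonneg (w.nonneg _) _) (Real.exp_pos _).le
  · refine (le_exp_lam w _).trans (Real.exp_le_exp.2 ?_)
    exact Finset.single_le_sum (f := fun k => lam w (P.coeff k)) (fun k _ => lam_nonneg w _) hi
  · rw [Real.exp_nat_mul]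
    refine (pow_le_pow_left₀ (w.nonneg _) (le_exp_lam w t) i).trans ?_
    refine pow_le_pow_right₀ (Real.one_le_exp (lam_nonneg w t)) ?_
    have := Finset.mem_range.1 hi
    omega

theorem eval_eq (P : K[X]) {D : ℕ} (hD : P.natDegree ≤ D) (t : K) :
    P.eval t = ∑ i ∈ Finset.range (D + 1), P.coeff i * t ^ i :=
  Polynomial.eval_eq_sum_range' (by omega) t

/-- values at any place -/
theorem val_any (w : AbsoluteValue K ℝ) (P : K[X]) {D : ℕ} (hD : P.natDegree ≤ D) (t : K) :
    w (P.eval t) ≤ Real.exp (Real.log (D + 1) +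
      (D * lam w t + ∑ k ∈ Finset.range (D + 1), lam w (P.coeff k))) := by
  rw [eval_eq P hD]
  refine (w.sum_le _ _).trans ?_
  refine (Finset.sum_le_sum fun i hi => term_le w P D t hi).trans (le_of_eq ?_)
  rw [Finset.sum_const, Finset.card_range, nsmul_eq_mul, Real.exp_add (Real.log _),
    Real.exp_log (by positivity)]
  push_cast
  rfl

theorem na_sum {w : AbsoluteValue K ℝ} (hw : Na w) {ι : Type} (s : Finset ι) (f : ι → K) {r : ℝ}
    (hr : 0 ≤ r) (h : ∀ i ∈ s, w (f i) ≤ r) : w (∑ i ∈ s, f i) ≤ r := by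
  classical
  induction s using Finset.induction_on with
  | empty => simpa using hr
  | insert a s ha ih =>
    rw [Finset.sum_insert ha]
    exact hw.le_add (h a (Finset.mem_insert_self a s))
      (ih fun i hi => h i (Finset.mem_insert_of_mem hi))

/-- values at a finite place -/
theorem val_na {w : AbsoluteValue K ℝ} (hw : Na w) (P : K[X]) {D : ℕ} (hD : P.natDegree ≤ D)
    (t : K) : w (P.eval t) ≤ Real.exp
      (D * lam w t + ∑ k ∈ Finset.range (D + 1), lam w (P.coeff k)) := by
  rw [eval_eq P hD]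
  exact na_sum hw _ _ (Real.exp_pos _).le fun i hi => term_le w P D t hi

/-- from values to the ratio -/
theorem ratio_of {w : AbsoluteValue K ℝ} {x y : K} (hy : y ≠ 0) {r : ℝ} (hx' : w x ≤ Real.exp r)
    (hy' : w y ≤ Real.exp r) : lam w (x / y) ≤ r - Real.log (w y) := by
  have hy0 : 0 < w y := w.pos hy
  unfold lam
  have e : max (w (x / y)) 1 = max (w x) (w y) / w y := by
    rw [map_div₀]
    conv_lhs => rw [← div_self hy0.ne']
    rw [max_div_div_right hy0.le]
  rw [e, Real.log_div (lt_of_lt_of_le hy0 (le_max_right _ _)).ne' hy0.ne']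
  have h : Real.log (max (w x) (w y)) ≤ r := by
    rw [Real.log_le_iff_le_exp (lt_of_lt_of_le hy0 (le_max_right _ _))]
    exact max_le hx' hy'
  linarith

/-- roots: the basic inequality -/
theorem root_of {w : AbsoluteValue K ℝ} {P : K[X]} {D : ℕ} (hD : P.natDegree ≤ D) (hP : P ≠ 0)
    {π : K} (hπ : P.eval π = 0) {c : ℝ} (hc : 0 ≤ c)
    (hs : w (∑ i ∈ Finset.range P.natDegree, P.coeff i * π ^ i) ≤ Real.exp c *
      (Real.exp (∑ k ∈ Finset.range (D + 1), lam w (P.coeff k)) * (max (w π) 1) ^ (P.natDegree - 1))) :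
    lam w π ≤ c + ∑ k ∈ Finset.range (D + 1), lam w (P.coeff k) - Real.log (w P.leadingCoeff) := by
  have ha : P.leadingCoeff ≠ 0 := leadingCoeff_ne_zero.2 hP
  have ha0 : 0 < w P.leadingCoeff := w.pos ha
  set Λ := ∑ k ∈ Finset.range (D + 1), lam w (P.coeff k) with hΛ
  have hlead : Real.log (w P.leadingCoeff) ≤ Λ := by
    have h1 : lam w P.leadingCoeff ≤ Λ :=
      Finset.single_le_sum (f := fun k => lam w (P.coeff k)) (fun k _ => lam_nonneg w _)
        (Finset.mem_range.2 (by omega : P.natDegree < D + 1))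
    refine le_trans ?_ h1
    exact Real.log_le_log ha0 (le_max_left _ _)
  rcases le_or_gt (w π) 1 with h | h
  · have : lam w π = 0 := by unfold lam; rw [max_eq_right h, Real.log_one]
    rw [this]
    linarith
  · have hm : 1 ≤ P.natDegree := by
      by_contra hcon
      have h0 : P.natDegree = 0 := by omega
      have h1 : P = C (P.coeff 0) := eq_C_of_natDegree_eq_zero h0
      rw [h1, eval_C] at hπ
      apply hP
      rw [h1, hπ, C_0]
    have hw1 : max (w π) 1 = w π := max_eq_left h.le
    rw [hw1] at hs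
    have e1 : P.leadingCoeff * π ^ P.natDegree =
        -∑ i ∈ Finset.range P.natDegree, P.coeff i * π ^ i := by
      have h2 := hπ
      rw [Polynomial.eval_eq_sum_range, Finset.sum_range_succ] at h2
      rw [← coeff_natDegree]
      linear_combination h2
    have e2 : w P.leadingCoeff * w π ^ P.natDegree =
        w (∑ i ∈ Finset.range P.natDegree, P.coeff i * π ^ i) := by
      rw [← map_pow, ← map_mul, e1, map_neg_eq_map]
    have hπ0 : 0 < w π := by linarith
    have e3 : w π ^ P.natDegree = w π ^ (P.natDegree - 1) * w π := by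
      rw [← pow_succ]
      congr 1
      omega
    rw [← e2, e3] at hs
    have h4 : w P.leadingCoeff * w π ≤ Real.exp c * Real.exp Λ := by
      have h5 : 0 < w π ^ (P.natDegree - 1) := by positivity
      have h6 : w π ^ (P.natDegree - 1) * (w P.leadingCoeff * w π) ≤
          w π ^ (P.natDegree - 1) * (Real.exp c * Real.exp Λ) := by
        calc w π ^ (P.natDegree - 1) * (w P.leadingCoeff * w π)
            = w P.leadingCoeff * (w π ^ (P.natDegree - 1) * w π) := by ring
          _ ≤ _ := hs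
          _ = _ := by ring
      exact le_of_mul_le_mul_left h6 h5
    have h5 : lam w π = Real.log (w π) := by unfold lam; rw [hw1]
    have h6 := Real.log_le_log (by positivity) h4
    rw [← Real.exp_add, Real.log_exp, Real.log_mul ha0.ne' hπ0.ne'] at h6
    rw [h5]
    linarith

theorem root_term (w : AbsoluteValue K ℝ) (P : K[X]) {D : ℕ} (hD : P.natDegree ≤ D) (π : K) {i : ℕ}
    (hi : i ∈ Finset.range P.natDegree) : w (P.coeff i * π ^ i) ≤
      Real.exp (∑ k ∈ Finset.range (D + 1), lam w (P.coeff k)) *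
        (max (w π) 1) ^ (P.natDegree - 1) := by
  have hi' := Finset.mem_range.1 hi
  rw [map_mul, map_pow]
  refine mul_le_mul ?_ ?_ (pow_nonneg (w.nonneg _) _) (Real.exp_pos _).le
  · refine (le_exp_lam w _).trans (Real.exp_le_exp.2 ?_)
    exact Finset.single_le_sum (f := fun k => lam w (P.coeff k)) (fun k _ => lam_nonneg w _)
      (Finset.mem_range.2 (by omega))
  · refine (pow_le_pow_left₀ (w.nonneg _) (le_max_left (w π) 1) i).trans ?_
    exact pow_le_pow_right₀ (le_max_right _ _) (by omega)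

/-- roots at any place -/
theorem root_any (w : AbsoluteValue K ℝ) {P : K[X]} {D : ℕ} (hD : P.natDegree ≤ D) (hP : P ≠ 0)
    {π : K} (hπ : P.eval π = 0) : lam w π ≤ Real.log (D + 1) +
      ∑ k ∈ Finset.range (D + 1), lam w (P.coeff k) - Real.log (w P.leadingCoeff) := by
  refine root_of hD hP hπ (Real.log_nonneg (by linarith [(Nat.cast_nonneg D : (0:ℝ) ≤ D)])) ?_
  refine (w.sum_le _ _).trans ?_
  refine (Finset.sum_le_sum fun i hi => root_term w P hD π hi).trans ?_
  rw [Finset.sum_const, Finset.card_range, nsmul_eq_mul, Real.exp_log (by positivity)]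
  refine mul_le_mul_of_nonneg_right ?_ (by positivity)
  have : (P.natDegree : ℝ) ≤ D := by exact_mod_cast hD
  linarith

/-- roots at a finite place -/
theorem root_na {w : AbsoluteValue K ℝ} (hw : Na w) {P : K[X]} {D : ℕ} (hD : P.natDegree ≤ D)
    (hP : P ≠ 0) {π : K} (hπ : P.eval π = 0) : lam w π ≤
      ∑ k ∈ Finset.range (D + 1), lam w (P.coeff k) - Real.log (w P.leadingCoeff) := by
  have h := root_of hD hP hπ (le_refl (0 : ℝ)) (w := w) (by
    rw [Real.exp_zero, one_mul]
    exact na_sum hw _ _ (by positivity) fun i hi => root_term w P hD π hi)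
  linarith

end pointwise

section sums
variable {K : Type} [Field K] [NumberField K]

theorem log_eq_Sa (z : K) : logHeight₁ z = Sa (fun w => lam w z) := logHeight_eq z

theorem Sm_sum {ι : Type} (s : Finset ι) (f : ι → InfinitePlace K → ℝ) (g : ι → Pr K → ℝ)
    (h : ∀ i ∈ s, (Function.support (g i)).Finite) :
    (Function.support fun v => ∑ i ∈ s, g i v).Finite ∧
    Sm (fun w => ∑ i ∈ s, f i w) (fun v => ∑ i ∈ s, g i v) = ∑ i ∈ s, Sm (f i) (g i) := by
  classical
  induction s using Finset.induction_on with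
  | empty =>
    refine ⟨by simp, ?_⟩
    unfold Sm
    simp
  | insert a s ha ih =>
    obtain ⟨i1, i2⟩ := ih fun i hi => h i (Finset.mem_insert_of_mem hi)
    have h1 := h a (Finset.mem_insert_self a s)
    simp only [Finset.sum_insert ha]
    exact ⟨supp_add h1 i1, by rw [Sm_add h1 i1, i2]⟩

theorem supp_lam (x : K) : (Function.support fun v : Pr K => lam (fv v) x).Finite := Fs_ht x

/-- heights of the values of a rational function -/
theorem ht_ratio (D : ℕ) (F G : K[X]) (hF : F.natDegree ≤ D) (hG : G.natDegree ≤ D) {h : ℝ}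
    (hF' : ∀ i, logHeight₁ (F.coeff i) ≤ h) (hG' : ∀ i, logHeight₁ (G.coeff i) ≤ h)
    (t : K) (ht : G.eval t ≠ 0) : logHeight₁ (F.eval t / G.eval t) ≤
      D * logHeight₁ t + (2 * D + 2) * h + Module.finrank ℚ K * Real.log (D + 1) := by
  have hl : (0 : ℝ) ≤ Real.log (D + 1) :=
    Real.log_nonneg (by linarith [(Nat.cast_nonneg D : (0:ℝ) ≤ D)])
  set s := Finset.range (D + 1) with hs
  obtain ⟨f1, f2⟩ := Sm_sum (K := K) s (fun i w => lam w.1 (F.coeff i))
    (fun i v => lam (fv v) (F.coeff i)) (fun i _ => supp_lam _)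
  obtain ⟨g1, g2⟩ := Sm_sum (K := K) s (fun i w => lam w.1 (G.coeff i))
    (fun i v => lam (fv v) (G.coeff i)) (fun i _ => supp_lam _)
  have t1 : (Function.support fun v : Pr K => (D : ℝ) * lam (fv v) t).Finite :=
    supp_mul _ (supp_lam t)
  have t2 : Sm (K := K) (fun w => (D : ℝ) * lam w.1 t) (fun v => (D : ℝ) * lam (fv v) t) =
      D * logHeight₁ t := by
    rw [Sm_mul, log_eq_Sa]
    rfl
  have c1 : (Function.support fun _ : Pr K => (0 : ℝ)).Finite := by simp
  have a1 := supp_add f1 g1
  have a2 := supp_add t1 a1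
  have a3 := supp_add c1 a2
  have l1 : (Function.support fun v : Pr K => Real.log (fv v (G.eval t))).Finite := Fs_log ht
  have key : logHeight₁ (F.eval t / G.eval t) ≤
      Sm (K := K) (fun w => (Real.log (D + 1) + (D * lam w.1 t + (∑ i ∈ s, lam w.1 (F.coeff i) +
        ∑ i ∈ s, lam w.1 (G.coeff i)))) - Real.log (w.1 (G.eval t)))
      (fun v => (0 + (D * lam (fv v) t + (∑ i ∈ s, lam (fv v) (F.coeff i) +
        ∑ i ∈ s, lam (fv v) (G.coeff i)))) - Real.log (fv v (G.eval t))) := by
    rw [log_eq_Sa]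
    refine Sm_mono (supp_lam _) (supp_sub a3 l1) (fun w => ?_) (fun v => ?_)
    · have hf : 0 ≤ ∑ i ∈ s, lam w.1 (F.coeff i) := Finset.sum_nonneg fun i _ => lam_nonneg _ _
      have hg : 0 ≤ ∑ i ∈ s, lam w.1 (G.coeff i) := Finset.sum_nonneg fun i _ => lam_nonneg _ _
      refine ratio_of ht ?_ ?_
      · refine (val_any w.1 F hF t).trans (Real.exp_le_exp.2 ?_)
        rw [← hs]
        linarith
      · refine (val_any w.1 G hG t).trans (Real.exp_le_exp.2 ?_)
        rw [← hs]
        linarith
    · have hf : 0 ≤ ∑ i ∈ s, lam (fv v) (F.coeff i) := Finset.sum_nonneg fun i _ => lam_nonneg _ _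
      have hg : 0 ≤ ∑ i ∈ s, lam (fv v) (G.coeff i) := Finset.sum_nonneg fun i _ => lam_nonneg _ _
      refine ratio_of ht ?_ ?_
      · refine (val_na (fv_Na v) F hF t).trans (Real.exp_le_exp.2 ?_)
        rw [← hs]
        linarith
      · refine (val_na (fv_Na v) G hG t).trans (Real.exp_le_exp.2 ?_)
        rw [← hs]
        linarith
  rw [Sm_sub a3 l1, Sm_add c1 a2, Sm_add t1 a1, Sm_add f1 g1, f2, g2, t2, Sm_const] at key
  have h0 : Sm (K := K) (fun w => Real.log (w.1 (G.eval t))) (fun v => Real.log (fv v (G.eval t))) =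
      0 := Sa_log ht
  rw [h0] at key
  have hsum : ∀ P : K[X], (∀ i, logHeight₁ (P.coeff i) ≤ h) →
      ∑ i ∈ s, Sm (K := K) (fun w => lam w.1 (P.coeff i)) (fun v => lam (fv v) (P.coeff i)) ≤
        (D + 1) * h := by
    intro P hP
    have h1 : ∑ i ∈ s, Sm (K := K) (fun w => lam w.1 (P.coeff i)) (fun v => lam (fv v) (P.coeff i))
        ≤ ∑ _i ∈ s, h := Finset.sum_le_sum fun i _ => by
      have := hP i
      rwa [log_eq_Sa] at this
    rw [Finset.sum_const, hs, Finset.card_range, nsmul_eq_mul] at h1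
    push_cast at h1
    exact h1
  have h1 := hsum F hF'
  have h2 := hsum G hG'
  linarith

/-- heights of roots -/
theorem ht_root (D : ℕ) (P : K[X]) (hD : P.natDegree ≤ D) (hP : P ≠ 0) {h : ℝ}
    (hP' : ∀ i, logHeight₁ (P.coeff i) ≤ h) {π : K} (hπ : P.eval π = 0) :
    logHeight₁ π ≤ (D + 1) * h + Module.finrank ℚ K * Real.log (D + 1) := by
  set s := Finset.range (D + 1) with hs
  obtain ⟨f1, f2⟩ := Sm_sum (K := K) s (fun i w => lam w.1 (P.coeff i))
    (fun i v => lam (fv v) (P.coeff i)) (fun i _ => supp_lam _)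
  have c1 : (Function.support fun _ : Pr K => (0 : ℝ)).Finite := by simp
  have a1 := supp_add c1 f1
  have ha : P.leadingCoeff ≠ 0 := leadingCoeff_ne_zero.2 hP
  have l1 : (Function.support fun v : Pr K => Real.log (fv v P.leadingCoeff)).Finite := Fs_log ha
  have key : logHeight₁ π ≤
      Sm (K := K) (fun w => (Real.log (D + 1) + ∑ i ∈ s, lam w.1 (P.coeff i)) -
        Real.log (w.1 P.leadingCoeff))
      (fun v => (0 + ∑ i ∈ s, lam (fv v) (P.coeff i)) - Real.log (fv v P.leadingCoeff)) := by
    rw [log_eq_Sa]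
    refine Sm_mono (supp_lam _) (supp_sub a1 l1) (fun w => ?_) (fun v => ?_)
    · exact root_any w.1 hD hP hπ
    · refine (root_na (fv_Na v) hD hP hπ).trans (le_of_eq ?_)
      rw [zero_add]
  rw [Sm_sub a1 l1, Sm_add c1 f1, f2, Sm_const] at key
  have h0 : Sm (K := K) (fun w => Real.log (w.1 P.leadingCoeff))
      (fun v => Real.log (fv v P.leadingCoeff)) = 0 := Sa_log ha
  rw [h0] at key
  have h1 : ∑ i ∈ s, Sm (K := K) (fun w => lam w.1 (P.coeff i)) (fun v => lam (fv v) (P.coeff i))
      ≤ ∑ _i ∈ s, h := Finset.sum_le_sum fun i _ => by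
    have := hP' i
    rwa [log_eq_Sa] at this
  rw [Finset.sum_const, hs, Finset.card_range, nsmul_eq_mul] at h1
  push_cast at h1
  linarith

end sums

end Pool.Agent.Q158.F2P
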