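import Mathlib
import Pool.Agent.Q158.F2P.Ht

/-!
# Poles of a rational function at one place, and the field of two roots
-/

set_option autoImplicit false

namespace Pool.Agent.Q158.F2P

open NumberField IsDedekindDomain Polynomial
open Pool.Agent.Y733.LS (Na)

section loc
variable {K : Type} [Field K] {w : AbsoluteValue K ℝ}

theorem pow_sub_le (hw : Na w) {x y : K} (hx : w x ≤ 1) (hy : w y ≤ 1) (i : ℕ) :
    w (x ^ i - y ^ i) ≤ w (x - y) := by
  induction i with
  | zero => simp
  | succ i ih =>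
    have e : x ^ (i + 1) - y ^ (i + 1) = x ^ i * (x - y) + (x ^ i - y ^ i) * y := by ring
    rw [e]
    apply hw.le_add
    · rw [map_mul, map_pow]
      exact mul_le_of_le_one_left (w.nonneg _) (pow_le_one₀ (w.nonneg _) hx)
    · rw [map_mul]
      exact (mul_le_of_le_one_right (w.nonneg _) hy).trans ih

theorem eval_sub_le (hw : Na w) (P : K[X]) (hP : ∀ i, w (P.coeff i) ≤ 1) {x y : K} (hx : w x ≤ 1)
    (hy : w y ≤ 1) : w (P.eval x - P.eval y) ≤ w (x - y) := by
  rw [eval_eq P le_rfl, eval_eq P le_rfl, ← Finset.sum_sub_distrib]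
  refine na_sum hw _ _ (w.nonneg _) fun i _ => ?_
  rw [← mul_sub, map_mul]
  exact (mul_le_of_le_one_left (w.nonneg _) (hP i)).trans (pow_sub_le hw hx hy i)

/-- near a finite pole -/
theorem near_pole (hw : Na w) (F G : K[X]) (hF : ∀ i, w (F.coeff i) ≤ 1)
    (hG : ∀ i, w (G.coeff i) ≤ 1) {π t : K} (hπ : w π ≤ 1) (hGπ : G.eval π = 0)
    (hFπ : 1 ≤ w (F.eval π)) (ht : w (t - π) < 1) (hGt : G.eval t ≠ 0) :
    1 < w (F.eval t / G.eval t) := by
  have ht1 : w t ≤ 1 := by
    have e : t = (t - π) + π := by ring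
    rw [e]
    exact hw.le_add ht.le hπ
  have h1 := eval_sub_le hw F hF ht1 hπ
  have h2 := eval_sub_le hw G hG ht1 hπ
  rw [hGπ, sub_zero] at h2
  have h3 : w (F.eval t) = w (F.eval π) := by
    have e : F.eval t = F.eval π + (F.eval t - F.eval π) := by ring
    rw [e]
    exact hw.eq (lt_of_le_of_lt h1 (lt_of_lt_of_le ht hFπ))
  have h4 : 0 < w (G.eval t) := w.pos hGt
  rw [map_div₀, lt_div_iff₀ h4, one_mul, h3]
  exact lt_of_lt_of_le (lt_of_le_of_lt h2 ht) hFπ

/-- near infinity -/
theorem near_inf (hw : Na w) (F G : K[X]) (hF : ∀ i, w (F.coeff i) ≤ 1)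
    (hG : ∀ i, w (G.coeff i) ≤ 1) (hdeg : G.natDegree < F.natDegree)
    (hlead : 1 ≤ w F.leadingCoeff) {t : K} (ht : 1 < w t) (hGt : G.eval t ≠ 0) :
    1 < w (F.eval t / G.eval t) := by
  have h0 : 0 < w t := by linarith
  have hlow : ∀ (P : K[X]) (_ : ∀ i, w (P.coeff i) ≤ 1) (n : ℕ),
      w (∑ i ∈ Finset.range (n + 1), P.coeff i * t ^ i) ≤ w t ^ n := by
    intro P hP n
    refine na_sum hw _ _ (by positivity) fun i hi => ?_
    rw [map_mul, map_pow]
    refine (mul_le_of_le_one_left (by positivity) (hP i)).trans ?_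
    exact pow_le_pow_right₀ ht.le (by have := Finset.mem_range.1 hi; omega)
  have hl1 : w F.leadingCoeff = 1 := le_antisymm (hF _) hlead
  obtain ⟨m, hm⟩ : ∃ m, F.natDegree = m + 1 := ⟨F.natDegree - 1, by omega⟩
  have h1 : w (F.eval t) = w t ^ (m + 1) := by
    rw [Polynomial.eval_eq_sum_range, Finset.sum_range_succ, add_comm, hm]
    have h2 := hlow F hF m
    have h3 : w (F.coeff (m + 1) * t ^ (m + 1)) = w t ^ (m + 1) := by
      rw [map_mul, map_pow, ← hm, coeff_natDegree, hl1, one_mul]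
    rw [← h3]
    apply hw.eq
    rw [h3]
    refine lt_of_le_of_lt h2 ?_
    exact pow_lt_pow_right₀ ht (Nat.lt_succ_self m)
  have h2 : w (G.eval t) ≤ w t ^ m := by
    rw [Polynomial.eval_eq_sum_range]
    refine (hlow G hG G.natDegree).trans ?_
    exact pow_le_pow_right₀ ht.le (by omega)
  have h4 : 0 < w (G.eval t) := w.pos hGt
  rw [map_div₀, lt_div_iff₀ h4, one_mul, h1]
  exact lt_of_le_of_lt h2 (pow_lt_pow_right₀ ht (Nat.lt_succ_self m))

/-- the quotient of the distances to two poles -/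
theorem quot_cases (hw : Na w) {π ρ t : K} (hπ : w π ≤ 1) (hρ : w ρ ≤ 1) (h1 : t - π ≠ 0)
    (h2 : t - ρ ≠ 0) (h : w ((t - π) / (t - ρ)) ≠ 1) : w (t - π) < 1 ∨ w (t - ρ) < 1 := by
  by_contra hcon
  push Not at hcon
  obtain ⟨h3, h4⟩ := hcon
  apply h
  have hp2 : 0 < w (t - ρ) := w.pos h2
  rw [map_div₀, div_eq_one_iff_eq hp2.ne']
  rcases le_or_gt (w t) 1 with h5 | h5
  · have h6 : w (t - π) ≤ 1 := hw.le_sub h5 hπ
    have h7 : w (t - ρ) ≤ 1 := hw.le_sub h5 hρ
    rw [le_antisymm h6 h3, le_antisymm h7 h4]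
  · have h6 : w (t - π) = w t := by
      rw [sub_eq_add_neg]
      apply hw.eq
      rw [map_neg_eq_map]
      exact lt_of_le_of_lt hπ h5
    have h7 : w (t - ρ) = w t := by
      rw [sub_eq_add_neg]
      apply hw.eq
      rw [map_neg_eq_map]
      exact lt_of_le_of_lt hρ h5
    rw [h6, h7]

/-- the distance to one pole -/
theorem one_cases (hw : Na w) {π t : K} (hπ : w π ≤ 1) (h : w (t - π) ≠ 1) :
    w (t - π) < 1 ∨ 1 < w t := by
  rcases lt_or_gt_of_ne h with h1 | h1
  · exact Or.inl h1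
  · right
    by_contra hcon
    exact absurd (hw.le_sub (not_lt.1 hcon) hπ) (not_le.2 h1)

end loc

/-- a root of a polynomial in a subfield -/
theorem root_sub {K M₀ Ω : Type} [Field K] [Field M₀] [Field Ω] [Algebra K M₀] [Algebra K Ω]
    (φ : M₀ →ₐ[K] Ω) (G : K[X]) (π : M₀) (h : aeval (φ π) G = 0) :
    (G.map (algebraMap K M₀)).eval π = 0 := by
  have h1 : φ (aeval π G) = 0 := by rw [← aeval_algHom_apply, h]
  have h2 : aeval π G = 0 := (map_eq_zero_iff φ φ.injective).1 h1
  rwa [eval_map_algebraMap]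

/-- the field generated by two roots -/
theorem exists_roots (L : Type) [Field L] [NumberField L] (G : L[X]) (hG : G ≠ 0)
    (x y : AlgebraicClosure L) (hx : aeval x G = 0) (hy : aeval y G = 0) :
    ∃ (M : Type) (_ : Field M) (_ : NumberField M) (_ : Algebra L M)
    (φ : M →ₐ[L] AlgebraicClosure L) (a b : M), φ a = x ∧ φ b = y ∧
      (G.map (algebraMap L M)).eval a = 0 ∧ (G.map (algebraMap L M)).eval b = 0 ∧
      Module.finrank L M ≤ G.natDegree * G.natDegree := by
  haveI : CharZero (AlgebraicClosure L) :=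
    charZero_of_injective_algebraMap (algebraMap L (AlgebraicClosure L)).injective
  let E1 := IntermediateField.adjoin L ({x} : Set (AlgebraicClosure L))
  let E2 := IntermediateField.adjoin L ({y} : Set (AlgebraicClosure L))
  have hix : IsIntegral L x := Algebra.IsIntegral.isIntegral x
  have hiy : IsIntegral L y := Algebra.IsIntegral.isIntegral y
  haveI : FiniteDimensional L E1 := IntermediateField.adjoin.finiteDimensional hix
  haveI : FiniteDimensional L E2 := IntermediateField.adjoin.finiteDimensional hiy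
  let F := E1 ⊔ E2
  haveI : FiniteDimensional L F := IntermediateField.finiteDimensional_sup E1 E2
  haveI : CharZero F := charZero_of_injective_algebraMap (algebraMap L F).injective
  haveI : FiniteDimensional ℚ F := Module.Finite.trans L F
  haveI : NumberField F := ⟨⟩
  have hxF : x ∈ F := (le_sup_left : E1 ≤ F) (IntermediateField.mem_adjoin_simple_self L x)
  have hyF : y ∈ F := (le_sup_right : E2 ≤ F) (IntermediateField.mem_adjoin_simple_self L y)
  have hdeg : ∀ z : AlgebraicClosure L, IsIntegral L z → aeval z G = 0 →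
      (minpoly L z).natDegree ≤ G.natDegree := fun z _ hz =>
    Polynomial.natDegree_le_of_dvd (minpoly.dvd L z hz) hG
  refine ⟨F, inferInstance, inferInstance, inferInstance, F.val, ⟨x, hxF⟩, ⟨y, hyF⟩, rfl, rfl,
    root_sub F.val G _ hx, root_sub F.val G _ hy, ?_⟩
  refine (IntermediateField.finrank_sup_le E1 E2).trans ?_
  refine Nat.mul_le_mul ?_ ?_
  · rw [IntermediateField.adjoin.finrank hix]
    exact hdeg x hix hx
  · rw [IntermediateField.adjoin.finrank hiy]
    exact hdeg y hiy hy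

end Pool.Agent.Q158.F2P
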