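import Mathlib
import Pool.Agent.Q158.F2P.Core
import Pool.Agent.Q158.F2P.Loc

/-!
# Families with two poles: few parameters with few poles, uniformly in the family and over all number
# fields of all degrees
-/

set_option autoImplicit false

namespace Pool.Agent.Q158.F2P

open NumberField IsDedekindDomain Polynomial Pool.Agent.H691R3 Pool.Agent.W223.AK
open Pool.Agent.H951R3.V (ell ell_pos logHeight₁_inv')
open Height (logHeight₁ zero_le_logHeight₁ logHeight₁_mul_le logHeight₁_sub_le)
open Pool.Agent.Y673.Loc (adv)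
open Pool.Agent.Y673.Cnt (fv_eq_one_iff)
open Pool.Agent.Y733.LS (Na fv_Na logHeight_eq)
open Pool.Agent.Q237.LT (fa wa mem_wa mem_wa_ext fa_le_ht)
open Pool.Agent.Y673.DK (ht_ext)

section bad
variable {M : Type} [Field M] [NumberField M]

theorem fa_le (z : M) : ∑ v ∈ wa z, ell v ≤ logHeight₁ z := by
  rw [logHeight_eq, ← Pool.Agent.Y733.LS.ht_eq_Sa]
  exact fa_le_ht z

open Classical in
theorem wt_biUnion {ι : Type} (s : Finset ι) (f : ι → Finset (Pr M)) :
    ∑ v ∈ s.biUnion f, ell v ≤ ∑ i ∈ s, ∑ v ∈ f i, ell v := by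
  induction s using Finset.induction_on with
  | empty => simp
  | insert a s ha ih =>
    rw [Finset.biUnion_insert, Finset.sum_insert ha]
    have h := Finset.sum_union_inter (s₁ := f a) (s₂ := s.biUnion f) (f := fun v => ell v)
    have h2 : 0 ≤ ∑ v ∈ f a ∩ s.biUnion f, ell v := Finset.sum_nonneg fun v _ => (ell_pos v).le
    linarith

open Classical in
/-- the bad primes -/
noncomputable def bad (F G : M[X]) (D : ℕ) (s : Finset M) : Finset (Pr M) :=
  ((Finset.range (D + 1)).biUnion fun i => wa (F.coeff i)) ∪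
    (((Finset.range (D + 1)).biUnion fun i => wa (G.coeff i)) ∪ s.biUnion fun z => wa z)

theorem bad_weight (F G : M[X]) (D : ℕ) (s : Finset M) {h H : ℝ} (hF : ∀ i, logHeight₁ (F.coeff i) ≤ h)
    (hG : ∀ i, logHeight₁ (G.coeff i) ≤ h) (hs : ∀ z ∈ s, logHeight₁ z ≤ H) :
    ∑ v ∈ bad F G D s, ell v ≤ (2 * D + 2) * h + s.card * H := by
  classical
  have hu : ∀ A B : Finset (Pr M), ∑ v ∈ A ∪ B, ell v ≤ ∑ v ∈ A, ell v + ∑ v ∈ B, ell v := by
    intro A B
    have h := Finset.sum_union_inter (s₁ := A) (s₂ := B) (f := fun v => ell v)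
    have h2 : 0 ≤ ∑ v ∈ A ∩ B, ell v := Finset.sum_nonneg fun v _ => (ell_pos v).le
    linarith
  have hP : ∀ P : M[X], (∀ i, logHeight₁ (P.coeff i) ≤ h) →
      ∑ v ∈ (Finset.range (D + 1)).biUnion (fun i => wa (P.coeff i)), ell v ≤ (D + 1) * h := by
    intro P hP
    refine (wt_biUnion _ _).trans ?_
    refine (Finset.sum_le_sum fun i _ => (fa_le (P.coeff i)).trans (hP i)).trans ?_
    rw [Finset.sum_const, Finset.card_range, nsmul_eq_mul]
    push_cast
    exact le_rfl
  have h3 : ∑ v ∈ s.biUnion (fun z => wa z), ell v ≤ s.card * H := by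
    refine (wt_biUnion _ _).trans ?_
    refine (Finset.sum_le_sum fun i hi => (fa_le i).trans (hs i hi)).trans ?_
    rw [Finset.sum_const, nsmul_eq_mul]
  have h1 := hP F hF
  have h2 := hP G hG
  have h4 := hu ((Finset.range (D + 1)).biUnion fun i => wa (F.coeff i))
    (((Finset.range (D + 1)).biUnion fun i => wa (G.coeff i)) ∪ s.biUnion fun z => wa z)
  have h5 := hu ((Finset.range (D + 1)).biUnion fun i => wa (G.coeff i)) (s.biUnion fun z => wa z)
  unfold bad
  linarith

theorem not_bad {F G : M[X]} {D : ℕ} {s : Finset M} (hF : F.natDegree ≤ D) (hG : G.natDegree ≤ D)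
    {v : Pr M} (hv : v ∉ bad F G D s) : (∀ i, fv v (F.coeff i) ≤ 1) ∧ (∀ i, fv v (G.coeff i) ≤ 1) ∧
      ∀ z ∈ s, fv v z ≤ 1 := by
  classical
  unfold bad at hv
  rw [Finset.mem_union, Finset.mem_union, not_or, not_or] at hv
  obtain ⟨h1, h2, h3⟩ := hv
  have hP : ∀ P : M[X], P.natDegree ≤ D →
      v ∉ (Finset.range (D + 1)).biUnion (fun i => wa (P.coeff i)) → ∀ i, fv v (P.coeff i) ≤ 1 := by
    intro P hP h i
    by_contra hcon
    push Not at hcon
    apply h
    rw [Finset.mem_biUnion]
    refine ⟨i, ?_, mem_wa.2 hcon⟩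
    rw [Finset.mem_range]
    by_contra hi
    rw [coeff_eq_zero_of_natDegree_lt (by omega), map_zero] at hcon
    linarith
  refine ⟨hP F hF h1, hP G hG h2, fun z hz => ?_⟩
  by_contra hcon
  push Not at hcon
  exact h3 (Finset.mem_biUnion.2 ⟨z, hz, mem_wa.2 hcon⟩)

end bad

/-- `F/G` has at least two different poles on the projective line over the algebraic closure. -/
def TwoPoles {L : Type} [Field L] (F G : L[X]) : Prop :=
  (∃ x y : AlgebraicClosure L, x ≠ y ∧ aeval x G = 0 ∧ aeval y G = 0) ∨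
    (0 < G.natDegree ∧ G.natDegree < F.natDegree)

section ext
variable {L M : Type} [Field L] [NumberField L] [Field M] [NumberField M] [Algebra L M]

theorem eval_up (P : L[X]) (t : L) : (P.map (algebraMap L M)).eval (algebraMap L M t) =
    algebraMap L M (P.eval t) := by
  rw [eval_map, eval₂_at_apply]

theorem coeff_up {P : L[X]} {h : ℝ} (hP : ∀ i, logHeight₁ (P.coeff i) ≤ h) (i : ℕ) :
    logHeight₁ ((P.map (algebraMap L M)).coeff i) ≤ Module.finrank L M * h := by
  rw [coeff_map, ht_ext]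
  exact mul_le_mul_of_nonneg_left (hP i) (Nat.cast_nonneg _)

theorem coprime_up {F G : L[X]} (h : IsCoprime F G) {π : M}
    (hπ : (G.map (algebraMap L M)).eval π = 0) : (F.map (algebraMap L M)).eval π ≠ 0 := by
  intro h0
  obtain ⟨a, b, hab⟩ := h.map (Polynomial.mapRingHom (algebraMap L M))
  have h1 := congrArg (Polynomial.eval π) hab
  simp only [coe_mapRingHom, eval_add, eval_mul, eval_one, h0, hπ, mul_zero, add_zero] at h1
  exact zero_ne_one h1

theorem ht_one_poly (i : ℕ) {h : ℝ} (hh : 0 ≤ h) : logHeight₁ ((1 : M[X]).coeff i) ≤ h := by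
  rw [coeff_one]
  split_ifs
  · simpa using hh
  · simpa using hh

/-- the height of a value of a polynomial -/
theorem ht_val (D : ℕ) (F : M[X]) (hF : F.natDegree ≤ D) {h : ℝ} (hh : 0 ≤ h)
    (hF' : ∀ i, logHeight₁ (F.coeff i) ≤ h) (t : M) : logHeight₁ (F.eval t) ≤
      D * logHeight₁ t + (2 * D + 2) * h + Module.finrank ℚ M * Real.log (D + 1) := by
  have := ht_ratio D F 1 hF (by simp) hF' (fun i => ht_one_poly i hh) t (by simp)
  simpa using this

end ext

theorem num_bound {q d n x h l lt Hπ H₁ : ℝ} (hq : 1 ≤ q) (hd0 : 0 ≤ d) (hd : d ≤ q ^ 2) (hn : 0 ≤ n)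
    (hx : 0 ≤ x) (hh : 0 ≤ h) (hl0 : 0 ≤ l) (hl : l ≤ q) (ht0 : 0 ≤ lt) (ht : lt ≤ 1)
    (eπ : Hπ = q * (d * h) + n * d * l)
    (e₁ : H₁ = q * Hπ + (2 * q + 1) * (d * h) + n * d * l) :
    2 * (d * x + Hπ + n * d * lt) + (2 * q * (d * h) + 4 * H₁) ≤ 34 * q ^ 4 * (x + h + n) := by
  have hq0 : 0 ≤ q := by linarith
  have q3 : q ^ 2 ≤ q ^ 3 := pow_le_pow_right₀ hq (by norm_num)
  have q4 : q ^ 3 ≤ q ^ 4 := pow_le_pow_right₀ hq (by norm_num)
  have h1 : d * h ≤ q ^ 2 * h := mul_le_mul_of_nonneg_right hd hh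
  have h2 : d * x ≤ q ^ 2 * x := mul_le_mul_of_nonneg_right hd hx
  have h3 : n * d ≤ q ^ 2 * n := by nlinarith
  have h4 : n * d * l ≤ q ^ 3 * n := by
    calc n * d * l ≤ (q ^ 2 * n) * q := mul_le_mul h3 hl hl0 (by positivity)
      _ = _ := by ring
  have h5 : n * d * lt ≤ q ^ 2 * n := by
    calc n * d * lt ≤ (q ^ 2 * n) * 1 := mul_le_mul h3 ht ht0 (by positivity)
      _ = _ := by ring
  have h6 : q * (d * h) ≤ q ^ 3 * h := by
    calc q * (d * h) ≤ q * (q ^ 2 * h) := mul_le_mul_of_nonneg_left h1 hq0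
      _ = _ := by ring
  have h7 : Hπ ≤ q ^ 3 * (h + n) := by rw [eπ]; linarith
  have h8 : q * Hπ ≤ q ^ 4 * (h + n) := by
    calc q * Hπ ≤ q * (q ^ 3 * (h + n)) := mul_le_mul_of_nonneg_left h7 hq0
      _ = _ := by ring
  have a3 : q ^ 3 * h ≤ q ^ 4 * h := mul_le_mul_of_nonneg_right q4 hh
  have a3n : q ^ 3 * n ≤ q ^ 4 * n := mul_le_mul_of_nonneg_right q4 hn
  have a2 : q ^ 2 * h ≤ q ^ 4 * h := mul_le_mul_of_nonneg_right (q3.trans q4) hh
  have a2x : q ^ 2 * x ≤ q ^ 4 * x := mul_le_mul_of_nonneg_right (q3.trans q4) hx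
  have a2n : q ^ 2 * n ≤ q ^ 4 * n := mul_le_mul_of_nonneg_right (q3.trans q4) hn
  have p1 : 0 ≤ q ^ 4 * x := by positivity
  have p2 : 0 ≤ q ^ 4 * h := by positivity
  have p3 : 0 ≤ q ^ 4 * n := by positivity
  rw [e₁]
  nlinarith

/-- **Few parameters with few poles.** -/
theorem fam_two (D : ℕ) {ε : ℝ} (hε : 0 < ε) : ∃ A : ℝ, 0 ≤ A ∧
    ∀ (L : Type) [Field L] [NumberField L] (F G : L[X]) (h : ℝ), F.natDegree ≤ D →
      G.natDegree ≤ D → IsCoprime F G → G ≠ 0 → TwoPoles F G →
      (∀ i, logHeight₁ (F.coeff i) ≤ h) → (∀ i, logHeight₁ (G.coeff i) ≤ h) →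
      ∀ (x W : ℝ) (E : Finset L), (∀ t ∈ E, logHeight₁ t ≤ x ∧ G.eval t ≠ 0 ∧
        fa (F.eval t / G.eval t) ≤ W) →
      (E.card : ℝ) ≤ Real.exp (Module.finrank ℚ L * A + (1 + ε) * W + ε * (x + h)) := by
  classical
  obtain ⟨q, hqd⟩ : ∃ q : ℝ, q = (D : ℝ) + 1 := ⟨_, rfl⟩
  have hD0 : (0 : ℝ) ≤ D := Nat.cast_nonneg D
  have hq : 1 ≤ q := by rw [hqd]; linarith
  have hq4 : 1 ≤ q ^ 4 := one_le_pow₀ hq
  obtain ⟨δ, hδd⟩ : ∃ δ : ℝ, δ = ε / (34 * q ^ 4) := ⟨_, rfl⟩
  have hδ : 0 < δ := by rw [hδd]; positivity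
  have hδε : δ * (34 * q ^ 4) = ε := by rw [hδd]; field_simp
  have hδ1 : δ ≤ ε := by
    rw [← hδε]
    exact le_mul_of_one_le_right hδ.le (by linarith)
  obtain ⟨A, hA, hcore⟩ := core (D * D) hδ
  refine ⟨A + ε, by positivity, ?_⟩
  intro L _ _ F G h hFD hGD hcop hG0 hpoles hFh hGh x W E hE
  rcases E.eq_empty_or_nonempty with rfl | ⟨t₁, ht₁⟩
  · simp only [Finset.card_empty, Nat.cast_zero]
    positivity
  have hx : 0 ≤ x := (zero_le_logHeight₁ t₁).trans (hE t₁ ht₁).1
  have hW : 0 ≤ W := (Pool.Agent.Q237.LT.fa_nonneg _).trans (hE t₁ ht₁).2.2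
  have hh : 0 ≤ h := (zero_le_logHeight₁ _).trans (hFh 0)
  have hn : (0 : ℝ) ≤ Module.finrank ℚ L := Nat.cast_nonneg _
  have hl0 : 0 ≤ Real.log (D + 1) := Real.log_nonneg (by linarith)
  have hl : Real.log (D + 1) ≤ q := by
    have := Real.log_le_sub_one_of_pos (show (0 : ℝ) < D + 1 by linarith)
    rw [hqd]
    linarith
  have ht0 : 0 ≤ Real.log 2 := Real.log_nonneg (by norm_num)
  have ht2 : Real.log 2 ≤ 1 := by
    have := Real.log_le_sub_one_of_pos (show (0 : ℝ) < 2 by norm_num)
    linarith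
  -- what remains to be shown, for the field of two poles
  have step : ∀ (M : Type) (_ : Field M) (_ : NumberField M) (_ : Algebra L M) (s : Finset M)
      (u : L → M), Module.finrank L M ≤ D * D → s.card ≤ 4 → ∀ (Hπ H₁ : ℝ),
      Hπ = q * (Module.finrank L M * h) + Module.finrank ℚ L * Module.finrank L M * Real.log (D + 1) →
      H₁ = q * Hπ + (2 * q + 1) * (Module.finrank L M * h) +
        Module.finrank ℚ L * Module.finrank L M * Real.log (D + 1) →
      (∀ z ∈ s, logHeight₁ z ≤ H₁) → Set.InjOn u E →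
      (∀ t ∈ E, u t ≠ 0 ∧ logHeight₁ (u t) ≤ 2 * (Module.finrank L M * x + Hπ +
          Module.finrank ℚ L * Module.finrank L M * Real.log 2) ∧
        ∀ w, w ∉ bad (F.map (algebraMap L M)) (G.map (algebraMap L M)) D s → fv w (u t) ≠ 1 →
          1 < fv w (algebraMap L M (F.eval t / G.eval t))) →
      (E.card : ℝ) ≤ Real.exp (Module.finrank ℚ L * (A + ε) + (1 + ε) * W + ε * (x + h)) := by
    intro M _ _ _ s u hM hs Hπ H₁ eπ e₁ hsH hinj hu
    have hdD : (Module.finrank L M : ℝ) ≤ q ^ 2 := by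
      have h1 : (Module.finrank L M : ℝ) ≤ D * D := by exact_mod_cast hM
      rw [hqd]
      nlinarith
    have hd0 : (0 : ℝ) ≤ Module.finrank L M := Nat.cast_nonneg _
    have hH1 : 0 ≤ H₁ := by
      rw [e₁, eπ]
      positivity
    have nb := num_bound hq hd0 hdD hn hx hh hl0 hl ht0 ht2 eπ e₁
    have hB := bad_weight (F.map (algebraMap L M)) (G.map (algebraMap L M)) D s
      (coeff_up hFh) (coeff_up hGh) hsH
    have hB' : ∑ v ∈ bad (F.map (algebraMap L M)) (G.map (algebraMap L M)) D s, ell v ≤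
        2 * q * (Module.finrank L M * h) + 4 * H₁ := by
      refine hB.trans ?_
      have h4 : (s.card : ℝ) ≤ 4 := by exact_mod_cast hs
      have h5 := mul_le_mul_of_nonneg_right h4 hH1
      have h6 : (2 * (D : ℝ) + 2) = 2 * q := by rw [hqd]; ring
      rw [h6]
      linarith
    have hHπ : 0 ≤ Hπ := by rw [eπ]; positivity
    refine (hcore L M hM E u (fun t => wa (F.eval t / G.eval t)) (fun t => F.eval t / G.eval t)
      _ _ W _ (by positivity : 0 ≤ 2 * (Module.finrank L M * x + Hπ +
          Module.finrank ℚ L * Module.finrank L M * Real.log 2)) hW hB' hinj ?_).trans ?_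
    · intro t ht
      obtain ⟨h1, h2, h3⟩ := hu t ht
      refine ⟨h1, h2, Finset.Subset.refl _, (hE t ht).2.2, fun w hw hne => ?_⟩
      rw [← mem_wa_ext (K := L)]
      refine mem_wa.2 (h3 w hw fun h4 => hne ?_)
      exact (fv_eq_one_iff w h1).1 h4
    · apply Real.exp_le_exp.2
      have h1 := mul_le_mul_of_nonneg_left nb hδ.le
      have h2 : δ * (34 * q ^ 4 * (x + h + Module.finrank ℚ L)) =
          ε * (x + h + Module.finrank ℚ L) := by rw [← mul_assoc, hδε]
      rw [h2] at h1
      have h3 := mul_le_mul_of_nonneg_right hδ1 hW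
      linarith
  -- heights of the roots
  have hroot : ∀ (M : Type) (_ : Field M) (_ : NumberField M) (_ : Algebra L M) (π : M),
      (G.map (algebraMap L M)).eval π = 0 → logHeight₁ π ≤ q * (Module.finrank L M * h) +
        Module.finrank ℚ L * Module.finrank L M * Real.log (D + 1) := by
    intro M _ _ _ π hπ
    have h1 := ht_root D (G.map (algebraMap L M)) (by rwa [natDegree_map])
      ((Polynomial.map_ne_zero_iff (algebraMap L M).injective).2 hG0) (coeff_up hGh) hπ
    rw [← Module.finrank_mul_finrank ℚ L M] at h1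
    push_cast at h1
    rwa [hqd]
  have hval : ∀ (M : Type) (_ : Field M) (_ : NumberField M) (_ : Algebra L M) (π : M) (Hπ : ℝ),
      logHeight₁ π ≤ Hπ → logHeight₁ (((F.map (algebraMap L M)).eval π)⁻¹) ≤
        q * Hπ + (2 * q + 1) * (Module.finrank L M * h) +
        Module.finrank ℚ L * Module.finrank L M * Real.log (D + 1) := by
    intro M _ _ _ π Hπ hπ
    rw [logHeight₁_inv']
    have h0 : (0 : ℝ) ≤ Module.finrank L M * h := by positivity
    have h1 := ht_val D (F.map (algebraMap L M)) (by rwa [natDegree_map]) h0 (coeff_up hFh) π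
    rw [← Module.finrank_mul_finrank ℚ L M] at h1
    push_cast at h1
    have h2 : (D : ℝ) * logHeight₁ π ≤ q * Hπ :=
      mul_le_mul (by rw [hqd]; linarith) hπ (zero_le_logHeight₁ _) (by linarith)
    have h3 : (2 * (D : ℝ) + 2) * (Module.finrank L M * h) ≤
        (2 * q + 1) * (Module.finrank L M * h) :=
      mul_le_mul_of_nonneg_right (by rw [hqd]; linarith) h0
    linarith
  have hsub : ∀ (M : Type) (_ : Field M) (_ : NumberField M) (_ : Algebra L M) (π : M) (t : L),
      t ∈ E → logHeight₁ (algebraMap L M t - π) ≤ Module.finrank L M * x + logHeight₁ π +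
        Module.finrank ℚ L * Module.finrank L M * Real.log 2 := by
    intro M _ _ _ π t ht
    have h1 := logHeight₁_sub_le (algebraMap L M t) π
    rw [totalWeight_eq_finrank, ht_ext, ← Module.finrank_mul_finrank ℚ L M] at h1
    push_cast at h1
    have h2 := mul_le_mul_of_nonneg_left (hE t ht).1 (Nat.cast_nonneg (Module.finrank L M) : (0:ℝ) ≤ _)
    linarith
  have hnz : ∀ (M : Type) (_ : Field M) (_ : NumberField M) (_ : Algebra L M) (π : M),
      (G.map (algebraMap L M)).eval π = 0 → ∀ t ∈ E, algebraMap L M t - π ≠ 0 := by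
    intro M _ _ _ π hπ t ht h0
    have h5 : algebraMap L M t = π := sub_eq_zero.1 h0
    rw [← h5, eval_up] at hπ
    exact (hE t ht).2.1 ((map_eq_zero_iff _ (algebraMap L M).injective).1 hπ)
  have hinv : ∀ (M : Type) (_ : Field M) (_ : NumberField M) (z : M) (w : Pr M), z ≠ 0 →
      fv w z⁻¹ ≤ 1 → 1 ≤ fv w z := by
    intro M _ _ z w hz h1
    rw [map_inv₀] at h1
    exact (inv_le_one₀ ((fv w).pos hz)).1 h1
  -- near a pole
  have near : ∀ (M : Type) (_ : Field M) (_ : NumberField M) (_ : Algebra L M) (π : M) (w : Pr M)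
      (s : Finset M), (G.map (algebraMap L M)).eval π = 0 → π ∈ s →
      ((F.map (algebraMap L M)).eval π)⁻¹ ∈ s →
      w ∉ bad (F.map (algebraMap L M)) (G.map (algebraMap L M)) D s → ∀ t ∈ E,
      fv w (algebraMap L M t - π) < 1 → 1 < fv w (algebraMap L M (F.eval t / G.eval t)) := by
    intro M _ _ _ π w s hπ h1 h2 hw t ht hlt
    obtain ⟨b1, b2, b3⟩ := not_bad (by rwa [natDegree_map]) (by rwa [natDegree_map]) hw
    have h3 := near_pole (fv_Na w) (F.map (algebraMap L M)) (G.map (algebraMap L M)) b1 b2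
      (b3 π h1) hπ (hinv M _ _ _ w (coprime_up hcop hπ) (b3 _ h2)) hlt (by
        rw [eval_up]
        exact (map_ne_zero_iff _ (algebraMap L M).injective).2 (hE t ht).2.1)
    rwa [eval_up, eval_up, ← map_div₀] at h3
  rcases hpoles with ⟨a, b, hab, ha, hb⟩ | ⟨hG, hFG⟩
  · obtain ⟨M, i1, i2, i3, φ, π, ρ, hπa, hρb, hπ, hρ, hfin⟩ := exists_roots L G hG0 a b ha hb
    have hπρ : π ≠ ρ := by
      rintro rfl
      exact hab (hπa.symm.trans hρb)
    have hfin' : Module.finrank L M ≤ D * D := hfin.trans (Nat.mul_le_mul hGD hGD)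
    have hdπ := hroot M i1 i2 i3 π hπ
    have hdρ := hroot M i1 i2 i3 ρ hρ
    refine step M i1 i2 i3 {π, ρ, ((F.map (algebraMap L M)).eval π)⁻¹,
      ((F.map (algebraMap L M)).eval ρ)⁻¹}
      (fun t => (algebraMap L M t - π) / (algebraMap L M t - ρ)) hfin' Finset.card_le_four
      _ _ rfl rfl ?_ ?_ ?_
    · intro z hz
      have hh' : (0 : ℝ) ≤ Module.finrank L M * h := by positivity
      have hnl : (0 : ℝ) ≤ Module.finrank ℚ L * Module.finrank L M * Real.log (D + 1) := by
        positivity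
      have hle : ∀ r : ℝ, r ≤ q * (Module.finrank L M * h) +
          Module.finrank ℚ L * Module.finrank L M * Real.log (D + 1) → r ≤
          q * (q * (Module.finrank L M * h) +
            Module.finrank ℚ L * Module.finrank L M * Real.log (D + 1)) +
          (2 * q + 1) * (Module.finrank L M * h) +
          Module.finrank ℚ L * Module.finrank L M * Real.log (D + 1) := by
        intro r hr
        have h1 : 0 ≤ q * (Module.finrank L M * h) +
          Module.finrank ℚ L * Module.finrank L M * Real.log (D + 1) := by positivity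
        have h2 := le_mul_of_one_le_left h1 hq
        have h3 : 0 ≤ (2 * q + 1) * (Module.finrank L M * h) := by positivity
        linarith
      simp only [Finset.mem_insert, Finset.mem_singleton] at hz
      rcases hz with rfl | rfl | rfl | rfl
      · exact hle _ hdπ
      · exact hle _ hdρ
      · exact hval M i1 i2 i3 π _ hdπ
      · exact hval M i1 i2 i3 ρ _ hdρ
    · intro t ht t' ht' htt
      have h1 := hnz M i1 i2 i3 ρ hρ t (Finset.mem_coe.1 ht)
      have h2 := hnz M i1 i2 i3 ρ hρ t' (Finset.mem_coe.1 ht')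
      simp only at htt
      rw [div_eq_div_iff h1 h2] at htt
      have h3 : (algebraMap L M t - algebraMap L M t') * (π - ρ) = 0 := by
        linear_combination htt
      rcases mul_eq_zero.1 h3 with h4 | h4
      · exact (algebraMap L M).injective (sub_eq_zero.1 h4)
      · exact absurd (sub_eq_zero.1 h4) hπρ
    · intro t ht
      have h1 := hnz M i1 i2 i3 π hπ t ht
      have h2 := hnz M i1 i2 i3 ρ hρ t ht
      refine ⟨div_ne_zero h1 h2, ?_, fun w hw hne => ?_⟩
      · rw [div_eq_mul_inv]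
        refine (logHeight₁_mul_le _ _).trans ?_
        rw [logHeight₁_inv']
        have := hsub M i1 i2 i3 π t ht
        have := hsub M i1 i2 i3 ρ t ht
        linarith
      · obtain ⟨b1, b2, b3⟩ := not_bad (by rwa [natDegree_map]) (by rwa [natDegree_map]) hw
        rcases quot_cases (fv_Na w) (b3 π (by simp)) (b3 ρ (by simp)) h1 h2 hne with h4 | h4
        · exact near M i1 i2 i3 π w _ hπ (by simp) (by simp) hw t ht h4
        · exact near M i1 i2 i3 ρ w _ hρ (by simp) (by simp) hw t ht h4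
  · obtain ⟨a, ha⟩ := IsAlgClosed.exists_aeval_eq_zero (AlgebraicClosure L) G
      (fun h => by rw [← natDegree_eq_zero_iff_degree_le_zero.2 h.le] at hG; exact lt_irrefl _ hG)
    obtain ⟨M, i1, i2, i3, φ, π, -, hπa, -, hπ, -, hfin⟩ := exists_roots L G hG0 a a ha ha
    have hfin' : Module.finrank L M ≤ D * D := hfin.trans (Nat.mul_le_mul hGD hGD)
    have hdπ := hroot M i1 i2 i3 π hπ
    have hinj := (algebraMap L M).injective
    have hF0 : F ≠ 0 := by
      rintro rfl
      simp at hFG
    have hlead : (F.map (algebraMap L M)).leadingCoeff ≠ 0 :=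
      leadingCoeff_ne_zero.2 ((Polynomial.map_ne_zero_iff hinj).2 hF0)
    refine step M i1 i2 i3 {π, ((F.map (algebraMap L M)).eval π)⁻¹,
      ((F.map (algebraMap L M)).leadingCoeff)⁻¹}
      (fun t => algebraMap L M t - π) hfin' (Finset.card_le_three.trans (by norm_num))
      _ _ rfl rfl ?_ ?_ ?_
    · intro z hz
      have hh' : (0 : ℝ) ≤ Module.finrank L M * h := by positivity
      have hnl : (0 : ℝ) ≤ Module.finrank ℚ L * Module.finrank L M * Real.log (D + 1) := by
        positivity
      have hle : ∀ r : ℝ, r ≤ q * (Module.finrank L M * h) +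
          Module.finrank ℚ L * Module.finrank L M * Real.log (D + 1) → r ≤
          q * (q * (Module.finrank L M * h) +
            Module.finrank ℚ L * Module.finrank L M * Real.log (D + 1)) +
          (2 * q + 1) * (Module.finrank L M * h) +
          Module.finrank ℚ L * Module.finrank L M * Real.log (D + 1) := by
        intro r hr
        have h1 : 0 ≤ q * (Module.finrank L M * h) +
          Module.finrank ℚ L * Module.finrank L M * Real.log (D + 1) := by positivity
        have h2 := le_mul_of_one_le_left h1 hq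
        have h3 : 0 ≤ (2 * q + 1) * (Module.finrank L M * h) := by positivity
        linarith
      simp only [Finset.mem_insert, Finset.mem_singleton] at hz
      rcases hz with rfl | rfl | rfl
      · exact hle _ hdπ
      · exact hval M i1 i2 i3 π _ hdπ
      · rw [logHeight₁_inv']
        apply hle
        have h1 := coeff_up (M := M) hFh (F.map (algebraMap L M)).natDegree
        rw [coeff_natDegree] at h1
        have h2 := le_mul_of_one_le_left hh' hq
        linarith
    · intro t _ t' _ htt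
      exact hinj (sub_left_injective htt)
    · intro t ht
      have h1 := hnz M i1 i2 i3 π hπ t ht
      refine ⟨h1, ?_, fun w hw hne => ?_⟩
      · have h2 := hsub M i1 i2 i3 π t ht
        have h3 := zero_le_logHeight₁ (algebraMap L M t - π)
        have h4 : (0 : ℝ) ≤ Module.finrank L M * x := by positivity
        have h5 : (0 : ℝ) ≤ Module.finrank ℚ L * Module.finrank L M * Real.log 2 := by positivity
        have h6 := zero_le_logHeight₁ π
        linarith
      · obtain ⟨b1, b2, b3⟩ := not_bad (by rwa [natDegree_map]) (by rwa [natDegree_map]) hw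
        rcases one_cases (fv_Na w) (b3 π (by simp)) hne with h4 | h4
        · exact near M i1 i2 i3 π w _ hπ (by simp) (by simp) hw t ht h4
        · have h5 := near_inf (fv_Na w) (F.map (algebraMap L M)) (G.map (algebraMap L M)) b1 b2
            (by rw [natDegree_map, natDegree_map]; exact hFG)
            (hinv M _ _ _ w hlead (b3 _ (by simp))) h4 (by
              rw [eval_up]
              exact (map_ne_zero_iff _ hinj).2 (hE t ht).2.1)
          rwa [eval_up, eval_up, ← map_div₀] at h5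

end Pool.Agent.Q158.F2P
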