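import Mathlib
import Pool.Agent.Q158.F2P.Fam
import Pool.Agent.Y733.FF.Main

/-!
# The minimal discriminant, the poles of the invariant and the conductor
-/

set_option autoImplicit false
set_option linter.unusedSectionVars false

namespace Pool.Agent.Q158.F2P

open NumberField IsDedekindDomain Height Pool.Agent.H691R3 Pool.Agent.W223.AK Pool.Agent.Y733.LS
open Pool.Agent.Y733.FF
open Pool.Agent.TH876.FH (GoodAt IsPeriod arch)
open Pool.Agent.Q237.LT (fa wa mem_wa)

section One
variable {K : Type} [Field K] [NumberField K]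

open Classical in
/-- the local inequality -/
theorem loc_pole (v : Pr K) (E : WeierstrassCurve K) (hE : E.Δ ≠ 0) {A : ℝ} (hA : 4 ≤ A) :
    (discExp v E : ℝ) * Real.log (Nv v) +
      A * (if v ∈ wa (E.c₄ ^ 3 / E.Δ) then Real.log (Nv v) else 0) ≤
    Real.log (max (fv v (E.c₄ ^ 3 / E.Δ)) 1) + A * mw v E + (A + 6) * aw v E +
      (22 + A) * (-Real.log (fv v (6 : K))) := by
  have hl := log_Nv_pos v
  obtain ⟨s0, s1⟩ := log_six v
  have hm := mw_nonneg v E
  have ha := aw_nonneg v E
  have hlp : 0 ≤ Real.log (max (fv v (E.c₄ ^ 3 / E.Δ)) 1) := Real.log_nonneg (le_max_right _ _)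
  have hm' : 0 ≤ A * mw v E := by positivity
  have ha' : 0 ≤ (A + 6) * aw v E := by positivity
  have hs' : 0 ≤ (22 + A) * (-Real.log (fv v (6 : K))) := mul_nonneg (by linarith) s0
  by_cases hg : GoodAt v E
  · have h4 := good_int v E hE hg
    have hsp : v ∉ wa (E.c₄ ^ 3 / E.Δ) := fun h => absurd (mem_wa.1 h) (not_lt.2 h4)
    rw [if_neg hsp, disc_good v E hg]
    push_cast
    linarith
  · by_cases hs : SemiAt v E
    · have h4 := semi_disc v E hE hs
      by_cases hsp : v ∈ wa (E.c₄ ^ 3 / E.Δ)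
      · rw [if_pos hsp]
        by_cases h6 : fv v (6 : K) = 1
        · have h7 : mw v E = Real.log (Nv v) := by
            unfold mw
            exact if_pos ⟨hg, hs, (fv_one_iff v).1 h6⟩
          rw [h7]
          linarith
        · have h7 := mul_le_mul_of_nonneg_left (s1 h6) (by linarith : (0 : ℝ) ≤ A)
          linarith
      · rw [if_neg hsp]
        linarith
    · obtain ⟨b1, b2⟩ := disc_bound v E hE
      by_cases h6 : fv v (6 : K) = 1
      · have h7 : aw v E = Real.log (Nv v) := by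
          unfold aw
          exact if_pos ⟨hs, (fv_one_iff v).1 h6⟩
        have h8 : Real.log (fv v (6 : K)) = 0 := by rw [h6, Real.log_one]
        rw [h7]
        by_cases hsp : v ∈ wa (E.c₄ ^ 3 / E.Δ)
        · have e2 : fv v (2 : K) ≤ 1 := (fv_Na v).ofNat 2
          have e3 : fv v (3 : K) ≤ 1 := (fv_Na v).ofNat 3
          have e6 : fv v (2 : K) * fv v (3 : K) = 1 := by
            rw [← map_mul, show (2 : K) * 3 = 6 by norm_num, h6]
          have p2 : 0 < fv v (2 : K) := (fv v).pos (by norm_num)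
          have p3 : 0 < fv v (3 : K) := (fv v).pos (by norm_num)
          have h9 := b2 (by nlinarith) (by nlinarith) (mem_wa.1 hsp)
          rw [if_pos hsp]
          rw [h8] at hs' ⊢
          linarith
        · rw [if_neg hsp]
          have h9 := mul_le_mul_of_nonneg_right hA hl.le
          linarith
      · have h7 := s1 h6
        have h9 := mul_le_mul_of_nonneg_left h7 (by linarith : (0 : ℝ) ≤ A)
        by_cases hsp : v ∈ wa (E.c₄ ^ 3 / E.Δ)
        · rw [if_pos hsp]
          linarith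
        · rw [if_neg hsp]
          have h10 : 0 ≤ A * Real.log (Nv v) := by positivity
          linarith

theorem disc_pole (E : WeierstrassCurve K) (hE : E.Δ ≠ 0) {A : ℝ} (hA : 4 ≤ A) :
    discSum E + A * fa (E.c₄ ^ 3 / E.Δ) ≤
      ∑ᶠ v : Pr K, Real.log (max (fv v (E.c₄ ^ 3 / E.Δ)) 1) + A * Real.log (multN E) +
        (A / 2 + 3) * Real.log (addN E) + (22 + A) * (Module.finrank ℚ K * Real.log 6) := by
  classical
  set j := E.c₄ ^ 3 / E.Δ with hj
  have s1 := supp_disc E hE
  have s2 : (Function.support fun v : Pr K => if v ∈ wa j then Real.log (Nv v) else 0).Finite := by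
    refine (wa j).finite_toSet.subset ?_
    intro v hv
    rw [Function.mem_support] at hv
    by_contra hcon
    exact hv (if_neg hcon)
  have s3 : (Function.support fun v : Pr K => Real.log (max (fv v j) 1)).Finite := Fs_ht j
  have s4 := supp_mw E hE
  have s5 := supp_aw E hE
  have s6 : (Function.support fun v : Pr K => Real.log (fv v (6 : K))).Finite :=
    Fs_log (K := K) (z := (6 : K)) (by norm_num)
  have s2' := supp_mul A s2
  have s4' := supp_mul A s4
  have s5' := supp_mul (A + 6) s5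
  have s6' := supp_mul (-(22 + A)) s6
  have s34 := supp_add s3 s4'
  have s345 := supp_add s34 s5'
  have key : ∑ᶠ v : Pr K, ((discExp v E : ℝ) * Real.log (Nv v) +
      A * (if v ∈ wa j then Real.log (Nv v) else 0)) ≤
      ∑ᶠ v : Pr K, (Real.log (max (fv v j) 1) + A * mw v E + (A + 6) * aw v E +
        -(22 + A) * Real.log (fv v (6 : K))) := by
    refine finsum_le_finsum' (supp_add s1 s2') (supp_add s345 s6') fun v => ?_
    have h := loc_pole v E hE hA
    rw [← hj] at h
    refine le_trans (le_of_eq ?_) (h.trans (le_of_eq ?_))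
    · congr!
    · ring
  rw [sum_add s1 s2', sum_mul _ s2, sum_add s345 s6', sum_add s34 s5', sum_add s3 s4',
    sum_mul _ s4, sum_mul _ s5, sum_mul _ s6] at key
  have h6 := fin_nat (K := K) (n := 6) (by norm_num)
  push_cast at h6
  rw [h6] at key
  rw [log_multN E hE, log_addN E hE]
  have e1 : discSum E = ∑ᶠ v : Pr K, (discExp v E : ℝ) * Real.log (Nv v) := rfl
  have e2 : fa j = ∑ᶠ v : Pr K, if v ∈ wa j then Real.log (Nv v) else 0 := by
    unfold Pool.Agent.Q237.LT.fa
    rw [finsum_eq_sum_of_support_subset (s := wa j) _ (by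
      intro v hv
      rw [Function.mem_support] at hv
      rw [Finset.mem_coe]
      by_contra hcon
      exact hv (if_neg hcon))]
    refine Finset.sum_congr rfl fun v hv => ?_
    rw [if_pos hv]
  rw [e1, e2]
  linarith

end One

/-- **The Faltings height, the poles of the invariant and the conductor.** -/
theorem frey_pole : ∃ c : ℝ, 0 ≤ c ∧ ∀ (K : Type) [Field K] [NumberField K]
    (E : WeierstrassCurve K) (τ : InfinitePlace K → UpperHalfPlane) (A : ℝ), E.Δ ≠ 0 →
    IsPeriod (E.c₄ ^ 3 / E.Δ) τ → 4 ≤ A →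
    discSum E + ∑ w : InfinitePlace K, (w.mult : ℝ) * arch (τ w) + A * fa (E.c₄ ^ 3 / E.Δ) ≤
      logHeight₁ (E.c₄ ^ 3 / E.Δ) + A * Real.log (multN E) + (A / 2 + 3) * Real.log (addN E) +
        (c + A * Real.log 6) * Module.finrank ℚ K := by
  obtain ⟨c, hc0, hc⟩ := arch_le
  have l6 : 0 < Real.log 6 := Real.log_pos (by norm_num)
  refine ⟨c + 22 * Real.log 6, by positivity, ?_⟩
  intro K _ _ E τ A hE hτ hA
  have h1 := disc_pole E hE hA
  have h2 := hc K _ τ hτ
  have h4 : logHeight₁ (E.c₄ ^ 3 / E.Δ) =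
      ∑ w : InfinitePlace K, (w.mult : ℝ) * Real.log (max (w (E.c₄ ^ 3 / E.Δ)) 1) +
      ∑ᶠ v : HeightOneSpectrum (𝓞 K), Real.log (max (FinitePlace.mk v (E.c₄ ^ 3 / E.Δ)) 1) := by
    rw [logHeight_eq]
    rfl
  have h5 : ∑ᶠ v : Pr K, Real.log (max (fv v (E.c₄ ^ 3 / E.Δ)) 1) =
    ∑ᶠ v : HeightOneSpectrum (𝓞 K), Real.log (max (FinitePlace.mk v (E.c₄ ^ 3 / E.Δ)) 1) := rfl
  rw [h5] at h1
  linarith

end Pool.Agent.Q158.F2P
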