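import Mathlib
import Pool.Agent.Q158.F2P.Fam

/-!
# Families with several rational poles
-/

set_option autoImplicit false

namespace Pool.Agent.Q158.F2P

open NumberField IsDedekindDomain Polynomial Pool.Agent.H691R3 Pool.Agent.W223.AK
open Pool.Agent.H951R3.V (ell ell_pos logHeight₁_inv')
open Height (logHeight₁ zero_le_logHeight₁ logHeight₁_mul_le logHeight₁_sub_le)
open Pool.Agent.Y673.Loc (adv)
open Pool.Agent.Y673.Cnt (fv_eq_one_iff)
open Pool.Agent.Y733.LS (Na fv_Na logHeight_eq)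
open Pool.Agent.Q237.LT (fa wa mem_wa mem_wa_ext fa_le_ht)

/-- the counting step without an extension -/
theorem core1 {ε : ℝ} (hε : 0 < ε) : ∃ A : ℝ, 0 ≤ A ∧
    ∀ (L : Type) [Field L] [NumberField L] (E : Finset L) (u : L → L) (S : L → Finset (Pr L))
      (R₀ : Finset (Pr L)) (Y W B : ℝ), 0 ≤ Y → 0 ≤ W → ∑ w ∈ R₀, ell w ≤ B → Set.InjOn u E →
      (∀ t ∈ E, u t ≠ 0 ∧ logHeight₁ (u t) ≤ Y ∧ ∑ v ∈ S t, ell v ≤ W ∧
        ∀ w, w ∉ R₀ → fv w (u t) ≠ 1 → w ∈ S t) →
      (E.card : ℝ) ≤ Real.exp (Module.finrank ℚ L * A + (1 + ε) * W + ε * (Y + B)) := by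
  classical
  obtain ⟨A1, hA1, h1⟩ := ucntR (half_pos hε)
  obtain ⟨A2, hA2, h2⟩ := sets_card (half_pos hε)
  refine ⟨A2 + A1, by positivity, ?_⟩
  intro L _ _ E u S R₀ Y W B hY hW hB hinj hE
  have hB0 : 0 ≤ B := le_trans (Finset.sum_nonneg fun v _ => (ell_pos v).le) hB
  have hQ : ((E.image S).card : ℝ) ≤ Real.exp (Module.finrank ℚ L * A2 + (1 + ε / 2) * W) := by
    refine h2 L W _ ?_
    intro T hT
    obtain ⟨t, ht, rfl⟩ := Finset.mem_image.1 hT
    exact (hE t ht).2.2.1
  have hfib : ∀ T ∈ E.image S, ((E.filter fun t => S t = T).card : ℝ) ≤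
      Real.exp (Module.finrank ℚ L * A1 + ε / 2 * (Y + (B + W))) := by
    intro T hT
    obtain ⟨t₀, ht₀, rfl⟩ := Finset.mem_image.1 hT
    obtain ⟨-, -, hW₀, -⟩ := hE t₀ ht₀
    have hRw : ∑ w ∈ R₀ ∪ S t₀, ell w ≤ B + W := by
      have h3 := Finset.sum_union_inter (s₁ := R₀) (s₂ := S t₀) (f := fun v => ell v)
      have h4 : 0 ≤ ∑ v ∈ R₀ ∩ S t₀, ell v := Finset.sum_nonneg fun v _ => (ell_pos v).le
      linarith
    rw [← Finset.card_image_of_injOn (f := u) (hinj.mono (by
      intro t ht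
      exact Finset.mem_coe.2 (Finset.mem_filter.1 (Finset.mem_coe.1 ht)).1))]
    refine (h1 L (R₀ ∪ S t₀) Y hY _ ?_).trans ?_
    · intro y hy
      obtain ⟨t, ht, rfl⟩ := Finset.mem_image.1 hy
      obtain ⟨ht1, ht2⟩ := Finset.mem_filter.1 ht
      obtain ⟨h3, h4, h6, h7⟩ := hE t ht1
      refine ⟨h3, h4, fun w hw => ?_⟩
      rw [Finset.mem_union, not_or] at hw
      rw [← fv_eq_one_iff w h3]
      by_contra hne
      have h8 := h7 w hw.1 hne
      rw [ht2] at h8
      exact hw.2 h8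
    · apply Real.exp_le_exp.2
      have h4 : ε / 2 * (Y + ∑ v ∈ R₀ ∪ S t₀, ell v) ≤ ε / 2 * (Y + (B + W)) :=
        mul_le_mul_of_nonneg_left (by linarith) (half_pos hε).le
      linarith
  have hcard : (E.card : ℝ) = ∑ T ∈ E.image S, ((E.filter fun t => S t = T).card : ℝ) := by
    rw [Finset.card_eq_sum_card_image S E]
    push_cast
    rfl
  rw [hcard]
  calc ∑ T ∈ E.image S, ((E.filter fun t => S t = T).card : ℝ)
      ≤ ∑ _T ∈ E.image S, Real.exp (Module.finrank ℚ L * A1 + ε / 2 * (Y + (B + W))) :=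
        Finset.sum_le_sum hfib
    _ = ((E.image S).card : ℝ) * Real.exp (Module.finrank ℚ L * A1 + ε / 2 * (Y + (B + W))) := by
        rw [Finset.sum_const, nsmul_eq_mul]
    _ ≤ Real.exp (Module.finrank ℚ L * A2 + (1 + ε / 2) * W) *
        Real.exp (Module.finrank ℚ L * A1 + ε / 2 * (Y + (B + W))) :=
        mul_le_mul_of_nonneg_right hQ (Real.exp_pos _).le
    _ ≤ _ := by
        rw [← Real.exp_add]
        apply Real.exp_le_exp.2
        nlinarith

/-- two of `r` numbers have at most `2 / r` of the sum -/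
theorem two_small {ι : Type} [DecidableEq ι] (P : Finset ι) (hP : 2 ≤ P.card) (f : ι → ℝ)
    {W : ℝ} (hW : ∑ p ∈ P, f p ≤ W) :
    ∃ p ∈ P, ∃ p' ∈ P, p ≠ p' ∧ f p + f p' ≤ 2 / P.card * W := by
  have hne : P.Nonempty := Finset.card_pos.1 (by omega)
  obtain ⟨p, hp, hmin⟩ := Finset.exists_min_image P f hne
  have hne' : (P.erase p).Nonempty := by
    rw [← Finset.card_pos, Finset.card_erase_of_mem hp]
    omega
  obtain ⟨p', hp', hmin'⟩ := Finset.exists_min_image (P.erase p) f hne'
  have hpp : p' ≠ p := Finset.ne_of_mem_erase hp'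
  refine ⟨p, hp, p', Finset.mem_of_mem_erase hp', hpp.symm, ?_⟩
  have h1 : ∑ q ∈ P, f q = f p + ∑ q ∈ P.erase p, f q := (Finset.add_sum_erase P f hp).symm
  have h2 : ((P.card : ℝ) - 1) * f p' ≤ ∑ q ∈ P.erase p, f q := by
    have h3 := Finset.card_nsmul_le_sum (P.erase p) f (f p') (fun q hq => hmin' q hq)
    rw [nsmul_eq_mul, Finset.card_erase_of_mem hp, Nat.cast_sub (by omega)] at h3
    simpa using h3
  have h3 : f p ≤ f p' := hmin p' (Finset.mem_of_mem_erase hp')
  have h4 : (2 : ℝ) ≤ P.card := by exact_mod_cast hP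
  have h5 : (0 : ℝ) < P.card := by linarith
  rw [div_mul_eq_mul_div, le_div_iff₀ h5]
  nlinarith

section poles
variable {L : Type} [Field L]

open Classical in
/-- the poles of `F/G` on the projective line over `L`; `none` is the point at infinity -/
noncomputable def ratPoles (F G : L[X]) : Finset (Option L) :=
  G.roots.toFinset.image some ∪ (if G.natDegree < F.natDegree then {none} else ∅)

theorem mem_some {F G : L[X]} (hG : G ≠ 0) {π : L} (h : some π ∈ ratPoles F G) :
    G.eval π = 0 := by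
  classical
  unfold ratPoles at h
  rw [Finset.mem_union] at h
  rcases h with h | h
  · obtain ⟨z, hz, hz'⟩ := Finset.mem_image.1 h
    rw [Option.some_inj] at hz'
    rw [← hz']
    rw [Multiset.mem_toFinset, mem_roots hG] at hz
    exact hz
  · split_ifs at h
    · simp at h
    · simp at h

theorem mem_none {F G : L[X]} (h : (none : Option L) ∈ ratPoles F G) :
    G.natDegree < F.natDegree := by
  classical
  unfold ratPoles at h
  rw [Finset.mem_union] at h
  rcases h with h | h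
  · simp at h
  · split_ifs at h with h1
    · exact h1
    · simp at h

open Classical in
theorem card_ratPoles (F G : L[X]) :
    (ratPoles F G).card = G.roots.toFinset.card + if G.natDegree < F.natDegree then 1 else 0 := by
  unfold ratPoles
  rw [Finset.card_union_of_disjoint, Finset.card_image_of_injective _ (Option.some_injective L)]
  · split_ifs
    · simp
    · simp
  · rw [Finset.disjoint_left]
    intro p hp hp'
    obtain ⟨z, _, rfl⟩ := Finset.mem_image.1 hp
    split_ifs at hp'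
    · simp at hp'
    · simp at hp'

/-- `t` is close to the pole at the place `w` -/
def Close (w : AbsoluteValue L ℝ) (t : L) : Option L → Prop
  | none => 1 < w t
  | some π => w (t - π) < 1

/-- the function with the two poles as zero and pole -/
noncomputable def quo (t : L) : Option L → Option L → L
  | some π, some ρ => (t - π) / (t - ρ)
  | some π, none => t - π
  | none, some ρ => t - ρ
  | none, none => t

end poles

theorem num_bound1 {q n x h l lt Hπ H₁ : ℝ} (hq : 1 ≤ q) (hn : 0 ≤ n)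
    (hx : 0 ≤ x) (hh : 0 ≤ h) (hl0 : 0 ≤ l) (hl : l ≤ q) (ht0 : 0 ≤ lt) (ht : lt ≤ 1)
    (eπ : Hπ = q * h + n * l)
    (e₁ : H₁ = (q + 2) * Hπ + (2 * q + 1) * h + n * l + n * lt) :
    2 * (x + Hπ + n * lt) + (2 * q * h + q ^ 2 * H₁) ≤ 20 * q ^ 4 * (x + h + n) := by
  have hq0 : 0 ≤ q := by linarith
  have q2 : q ≤ q ^ 2 := by nlinarith
  have q3 : q ^ 2 ≤ q ^ 3 := pow_le_pow_right₀ hq (by norm_num)
  have q4 : q ^ 3 ≤ q ^ 4 := pow_le_pow_right₀ hq (by norm_num)
  have h1 : n * l ≤ q * n := by nlinarith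
  have h2 : n * lt ≤ n := by nlinarith
  have h3 : Hπ ≤ q * (h + n) := by rw [eπ]; linarith
  have h4 : (q + 2) * Hπ ≤ 3 * q ^ 2 * (h + n) := by
    have h5 : (q + 2) * Hπ ≤ (q + 2) * (q * (h + n)) :=
      mul_le_mul_of_nonneg_left h3 (by linarith)
    have h6 : (q + 2) * (q * (h + n)) ≤ (3 * q) * (q * (h + n)) :=
      mul_le_mul_of_nonneg_right (by linarith) (by positivity)
    calc (q + 2) * Hπ ≤ (3 * q) * (q * (h + n)) := h5.trans h6
      _ = _ := by ring
  have a1 : q * h ≤ q ^ 2 * h := mul_le_mul_of_nonneg_right q2 hh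
  have a2 : h ≤ q ^ 2 * h := le_mul_of_one_le_left hh (by nlinarith)
  have a3 : q * n ≤ q ^ 2 * n := mul_le_mul_of_nonneg_right q2 hn
  have a4 : n ≤ q ^ 2 * n := le_mul_of_one_le_left hn (by nlinarith)
  have h5 : H₁ ≤ 6 * q ^ 2 * (h + n) := by
    rw [e₁]
    nlinarith
  have h6 : q ^ 2 * H₁ ≤ 6 * q ^ 4 * (h + n) := by
    calc q ^ 2 * H₁ ≤ q ^ 2 * (6 * q ^ 2 * (h + n)) := mul_le_mul_of_nonneg_left h5 (by positivity)
      _ = _ := by ring
  have b1 : q ^ 2 * h ≤ q ^ 4 * h := mul_le_mul_of_nonneg_right (q3.trans q4) hh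
  have b2 : q ^ 2 * n ≤ q ^ 4 * n := mul_le_mul_of_nonneg_right (q3.trans q4) hn
  have b3 : x ≤ q ^ 4 * x := le_mul_of_one_le_left hx (one_le_pow₀ hq)
  have p2 : 0 ≤ q ^ 4 * h := by positivity
  have p3 : 0 ≤ q ^ 4 * n := by positivity
  have p4 : 0 ≤ q ^ 4 * x := by positivity
  nlinarith

/-- **Few parameters with few poles, for several rational poles.** -/
theorem fam_rat (D : ℕ) {ε : ℝ} (hε : 0 < ε) : ∃ A : ℝ, 0 ≤ A ∧
    ∀ (L : Type) [Field L] [NumberField L] (F G : L[X]) (h : ℝ), F.natDegree ≤ D →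
      G.natDegree ≤ D → IsCoprime F G → G ≠ 0 → 2 ≤ (ratPoles F G).card →
      (∀ i, logHeight₁ (F.coeff i) ≤ h) → (∀ i, logHeight₁ (G.coeff i) ≤ h) →
      ∀ (x W : ℝ) (E : Finset L), (∀ t ∈ E, logHeight₁ t ≤ x ∧ G.eval t ≠ 0 ∧
        fa (F.eval t / G.eval t) ≤ W) →
      (E.card : ℝ) ≤ Real.exp (Module.finrank ℚ L * A +
        (1 + ε) * (2 / (ratPoles F G).card * W) + ε * (x + h)) := by
  classical
  obtain ⟨q, hqd⟩ : ∃ q : ℝ, q = (D : ℝ) + 1 := ⟨_, rfl⟩
  have hD0 : (0 : ℝ) ≤ D := Nat.cast_nonneg D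
  have hq : 1 ≤ q := by rw [hqd]; linarith
  have hq4 : 1 ≤ q ^ 4 := one_le_pow₀ hq
  obtain ⟨δ, hδd⟩ : ∃ δ : ℝ, δ = ε / (20 * q ^ 4) := ⟨_, rfl⟩
  have hδ : 0 < δ := by rw [hδd]; positivity
  have hδε : δ * (20 * q ^ 4) = ε := by rw [hδd]; field_simp
  have hδ1 : δ ≤ ε := by
    rw [← hδε]
    exact le_mul_of_one_le_right hδ.le (by linarith)
  obtain ⟨A, hA, hcore⟩ := core1 hδ
  refine ⟨A + ε + 2 * Real.log q, by
    have := Real.log_nonneg hq
    positivity, ?_⟩
  intro L _ _ F G h hFD hGD hcop hG0 hpoles hFh hGh x W E hE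
  rcases E.eq_empty_or_nonempty with rfl | ⟨t₁, ht₁⟩
  · simp only [Finset.card_empty, Nat.cast_zero]
    positivity
  have hx : 0 ≤ x := (zero_le_logHeight₁ t₁).trans (hE t₁ ht₁).1
  have hW : 0 ≤ W := (Pool.Agent.Q237.LT.fa_nonneg _).trans (hE t₁ ht₁).2.2
  have hh : 0 ≤ h := (zero_le_logHeight₁ _).trans (hFh 0)
  have hn : (0 : ℝ) ≤ Module.finrank ℚ L := Nat.cast_nonneg _
  have hn1 : (1 : ℝ) ≤ Module.finrank ℚ L := by
    exact_mod_cast Module.finrank_pos (R := ℚ) (M := L)
  have hl0 : 0 ≤ Real.log (D + 1) := Real.log_nonneg (by linarith)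
  have hl : Real.log (D + 1) ≤ q := by
    have := Real.log_le_sub_one_of_pos (show (0 : ℝ) < D + 1 by linarith)
    rw [hqd]
    linarith
  have ht0 : 0 ≤ Real.log 2 := Real.log_nonneg (by norm_num)
  have ht2 : Real.log 2 ≤ 1 := by
    have := Real.log_le_sub_one_of_pos (show (0 : ℝ) < 2 by norm_num)
    linarith
  obtain ⟨r, hr⟩ : ∃ r, r = (ratPoles F G).card := ⟨_, rfl⟩
  rw [← hr] at hpoles ⊢
  have hF0 : G.natDegree < F.natDegree → F ≠ 0 := by
    rintro h rfl
    simp at h
  have hroots : G.roots.toFinset.card ≤ D :=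
    (Multiset.toFinset_card_le _).trans ((card_roots' G).trans hGD)
  have hrD : r ≤ D + 1 := by
    rw [hr, card_ratPoles]
    split_ifs <;> omega
  -- the special elements
  obtain ⟨Z, hZ⟩ : ∃ Z, Z = G.roots.toFinset := ⟨_, rfl⟩
  have hZmem : ∀ π, π ∈ Z ↔ G.eval π = 0 := by
    intro π
    rw [hZ, Multiset.mem_toFinset, mem_roots hG0]
    rfl
  obtain ⟨s, hs⟩ : ∃ s : Finset L, s = Z ∪ (Z.image (fun π => (F.eval π)⁻¹) ∪
    ((Z ×ˢ Z).image (fun p => (p.1 - p.2)⁻¹) ∪ {(F.leadingCoeff)⁻¹})) := ⟨_, rfl⟩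
  have hscard : (s.card : ℝ) ≤ q ^ 2 := by
    have h1 : s.card ≤ Z.card + (Z.card + (Z.card * Z.card + 1)) := by
      rw [hs]
      refine (Finset.card_union_le _ _).trans (Nat.add_le_add_left ?_ _)
      refine (Finset.card_union_le _ _).trans (Nat.add_le_add Finset.card_image_le ?_)
      refine (Finset.card_union_le _ _).trans (Nat.add_le_add ?_ (by simp))
      exact Finset.card_image_le.trans (Finset.card_product _ _).le
    have h2 : Z.card ≤ D := by rw [hZ]; exact hroots
    have h3 : (s.card : ℝ) ≤ Z.card + (Z.card + (Z.card * Z.card + 1)) := by exact_mod_cast h1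
    have h4 : (Z.card : ℝ) ≤ D := by exact_mod_cast h2
    have h5 : (0 : ℝ) ≤ Z.card := Nat.cast_nonneg _
    rw [hqd]
    nlinarith
  obtain ⟨Hπ, eπ⟩ : ∃ H : ℝ, H = q * h + Module.finrank ℚ L * Real.log (D + 1) := ⟨_, rfl⟩
  obtain ⟨H₁, e₁⟩ : ∃ H : ℝ, H = (q + 2) * Hπ + (2 * q + 1) * h +
    Module.finrank ℚ L * Real.log (D + 1) + Module.finrank ℚ L * Real.log 2 := ⟨_, rfl⟩
  have hHπ : 0 ≤ Hπ := by rw [eπ]; positivity
  have hH1 : 0 ≤ H₁ := by rw [e₁]; positivity
  have nb := num_bound1 hq hn hx hh hl0 hl ht0 ht2 eπ e₁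
  have hroot : ∀ π : L, G.eval π = 0 → logHeight₁ π ≤ Hπ := by
    intro π hπ
    have h1 := ht_root D G hGD hG0 hGh hπ
    rw [eπ, hqd]
    exact h1
  have hfh : h ≤ H₁ := by
    rw [e₁]
    have h1 : 0 ≤ (q + 2) * Hπ := by positivity
    have h2 : 0 ≤ (Module.finrank ℚ L : ℝ) * Real.log (D + 1) := by positivity
    have h3 : 0 ≤ (Module.finrank ℚ L : ℝ) * Real.log 2 := by positivity
    nlinarith
  have hsH : ∀ z ∈ s, logHeight₁ z ≤ H₁ := by
    intro z hz
    have p1 : 0 ≤ q * Hπ := by positivity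
    have p2 : 0 ≤ (2 * q + 1) * h := by positivity
    have p3 : 0 ≤ (Module.finrank ℚ L : ℝ) * Real.log (D + 1) := by positivity
    have p4 : 0 ≤ (Module.finrank ℚ L : ℝ) * Real.log 2 := by positivity
    rw [hs, Finset.mem_union, Finset.mem_union, Finset.mem_union, Finset.mem_singleton,
      Finset.mem_image, Finset.mem_image] at hz
    rcases hz with hz | ⟨π, hπ, rfl⟩ | ⟨⟨π, ρ⟩, hπρ, rfl⟩ | rfl
    · have h1 := hroot z ((hZmem z).1 hz)
      rw [e₁]
      linarith
    · rw [logHeight₁_inv']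
      have h1 := ht_val D F hFD hh hFh π
      have h2 : (D : ℝ) * logHeight₁ π ≤ q * Hπ :=
        mul_le_mul (by rw [hqd]; linarith) (hroot π ((hZmem π).1 hπ)) (zero_le_logHeight₁ _)
          (by linarith)
      have h3 : (2 * (D : ℝ) + 2) * h ≤ (2 * q + 1) * h :=
        mul_le_mul_of_nonneg_right (by rw [hqd]; linarith) hh
      rw [e₁]
      linarith
    · rw [logHeight₁_inv']
      rw [Finset.mem_product] at hπρ
      have h1 := logHeight₁_sub_le π ρ
      rw [totalWeight_eq_finrank] at h1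
      have h2 := hroot π ((hZmem π).1 hπρ.1)
      have h3 := hroot ρ ((hZmem ρ).1 hπρ.2)
      rw [e₁]
      simp only
      linarith
    · rw [logHeight₁_inv']
      have h1 := hFh F.natDegree
      rw [coeff_natDegree] at h1
      linarith
  have hB : ∑ v ∈ bad F G D s, ell v ≤ 2 * q * h + q ^ 2 * H₁ := by
    refine (bad_weight F G D s hFh hGh hsH).trans ?_
    have h5 := mul_le_mul_of_nonneg_right hscard hH1
    have h6 : (2 * (D : ℝ) + 2) = 2 * q := by rw [hqd]; ring
    rw [h6]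
    linarith
  have hinv : ∀ (z : L) (w : Pr L), z ≠ 0 → fv w z⁻¹ ≤ 1 → 1 ≤ fv w z := by
    intro z w hz h1
    rw [map_inv₀] at h1
    exact (inv_le_one₀ ((fv w).pos hz)).1 h1
  have hFπ : ∀ π, G.eval π = 0 → F.eval π ≠ 0 := by
    intro π hπ h0
    obtain ⟨a, b, hab⟩ := hcop
    have h1 := congrArg (Polynomial.eval π) hab
    simp only [eval_add, eval_mul, eval_one, h0, hπ, mul_zero, add_zero] at h1
    exact zero_ne_one h1
  -- good primes
  have hgood : ∀ w : Pr L, w ∉ bad F G D s →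
      (∀ t ∈ E, ∀ p ∈ ratPoles F G, Close (fv w) t p → 1 < fv w (F.eval t / G.eval t)) ∧
      (∀ t : L, ∀ p ∈ ratPoles F G, ∀ p' ∈ ratPoles F G, p ≠ p' → Close (fv w) t p →
        ¬ Close (fv w) t p') ∧ (∀ π, some π ∈ ratPoles F G → fv w π ≤ 1) := by
    intro w hw
    obtain ⟨b1, b2, b3⟩ := not_bad hFD hGD hw
    have hπ1 : ∀ π, some π ∈ ratPoles F G → fv w π ≤ 1 := fun π hπ => b3 π (by
      rw [hs]
      exact Finset.mem_union_left _ ((hZmem π).2 (mem_some hG0 hπ)))
    refine ⟨?_, ?_, hπ1⟩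
    · intro t ht p hp hcl
      cases p with
      | none =>
        have h1 := mem_none hp
        refine near_inf (fv_Na w) F G b1 b2 h1 (hinv _ w (leadingCoeff_ne_zero.2 (hF0 h1))
          (b3 _ ?_)) hcl (hE t ht).2.1
        rw [hs]
        simp
      | some π =>
        have h1 := mem_some hG0 hp
        refine near_pole (fv_Na w) F G b1 b2 (hπ1 π hp) h1 (hinv _ w (hFπ π h1) (b3 _ ?_)) hcl
          (hE t ht).2.1
        rw [hs]
        refine Finset.mem_union_right _ (Finset.mem_union_left _ (Finset.mem_image.2 ⟨π, ?_, rfl⟩))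
        exact (hZmem π).2 h1
    · intro t p hp p' hp' hpp h1 h2
      have key : ∀ π, some π ∈ ratPoles F G → Close (fv w) t (some π) → fv w t ≤ 1 := by
        intro π hπ hcl
        have e : t = (t - π) + π := by ring
        rw [e]
        exact (fv_Na w).le_add (le_of_lt hcl) (hπ1 π hπ)
      cases p with
      | none =>
        cases p' with
        | none => exact hpp rfl
        | some ρ => exact absurd h1 (not_lt.2 (key ρ hp' h2))
      | some π =>
        cases p' with
        | none => exact absurd h2 (not_lt.2 (key π hp h1))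
        | some ρ =>
          have hne : π - ρ ≠ 0 := by
            intro h0
            exact hpp (by rw [sub_eq_zero.1 h0])
          have h3 : 1 ≤ fv w (π - ρ) := hinv _ w hne (b3 _ (by
            rw [hs]
            refine Finset.mem_union_right _ (Finset.mem_union_right _
              (Finset.mem_union_left _ (Finset.mem_image.2 ⟨(π, ρ), ?_, rfl⟩)))
            exact Finset.mem_product.2 ⟨(hZmem π).2 (mem_some hG0 hp),
              (hZmem ρ).2 (mem_some hG0 hp')⟩))
          have e : π - ρ = (t - ρ) - (t - π) := by ring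
          rw [e] at h3
          exact absurd ((fv_Na w).lt_sub h2 h1) (not_lt.2 h3)
  -- the primes at which `t` is close to `p`
  obtain ⟨S, hS⟩ : ∃ S : L → Option L → Finset (Pr L), S = fun t p =>
    (wa (F.eval t / G.eval t)).filter (fun v => v ∉ bad F G D s ∧ Close (fv v) t p) := ⟨_, rfl⟩
  have hSsum : ∀ t, ∑ p ∈ ratPoles F G, ∑ v ∈ S t p, ell v ≤ fa (F.eval t / G.eval t) := by
    intro t
    rw [← Finset.sum_biUnion]
    · refine Finset.sum_le_sum_of_subset_of_nonneg ?_ (fun v _ _ => (ell_pos v).le)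
      intro v hv
      obtain ⟨p, _, hv⟩ := Finset.mem_biUnion.1 hv
      rw [hS] at hv
      exact (Finset.mem_filter.1 hv).1
    · intro p hp p' hp' hpp
      rw [Function.onFun, Finset.disjoint_left]
      intro v hv hv'
      rw [hS] at hv hv'
      obtain ⟨_, h1, h2⟩ := Finset.mem_filter.1 hv
      obtain ⟨_, _, h3⟩ := Finset.mem_filter.1 hv'
      exact (hgood v h1).2.1 t p hp p' hp' hpp h2 h3
  have hnz : ∀ t ∈ E, ∀ π, G.eval π = 0 → t - π ≠ 0 := by
    intro t ht π hπ h0
    rw [← sub_eq_zero.1 h0] at hπ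
    exact (hE t ht).2.1 hπ
  have hsub : ∀ t ∈ E, ∀ π, G.eval π = 0 →
      logHeight₁ (t - π) ≤ x + Hπ + Module.finrank ℚ L * Real.log 2 := by
    intro t ht π hπ
    have h1 := logHeight₁_sub_le t π
    rw [totalWeight_eq_finrank] at h1
    have h2 := hroot π hπ
    have h3 := (hE t ht).1
    linarith
  -- one pair
  have hpair : ∀ p ∈ ratPoles F G, ∀ p' ∈ ratPoles F G, p ≠ p' →
      ((E.filter fun t => ∑ v ∈ S t p, ell v + ∑ v ∈ S t p', ell v ≤ 2 / r * W).card : ℝ) ≤
      Real.exp (Module.finrank ℚ L * (A + ε) + (1 + ε) * (2 / r * W) + ε * (x + h)) := by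
    intro p hp p' hp' hpp
    have hnlt : 0 ≤ (Module.finrank ℚ L : ℝ) * Real.log 2 := by positivity
    have hr0 : (0 : ℝ) ≤ 2 / r * W := by positivity
    refine (hcore L (E.filter fun t => ∑ v ∈ S t p, ell v + ∑ v ∈ S t p', ell v ≤ 2 / r * W)
      (fun t => quo t p p') (fun t => S t p ∪ S t p') (bad F G D s)
      (2 * (x + Hπ + Module.finrank ℚ L * Real.log 2)) (2 / r * W) _ (by positivity)
      hr0 hB ?_ ?_).trans ?_
    · intro t ht t' ht' htt
      have ht1 := (Finset.mem_filter.1 (Finset.mem_coe.1 ht)).1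
      have ht1' := (Finset.mem_filter.1 (Finset.mem_coe.1 ht')).1
      cases p with
      | none =>
        cases p' with
        | none => exact absurd rfl hpp
        | some ρ => exact sub_left_injective htt
      | some π =>
        cases p' with
        | none => exact sub_left_injective htt
        | some ρ =>
          have h1 := hnz t ht1 ρ (mem_some hG0 hp')
          have h2 := hnz t' ht1' ρ (mem_some hG0 hp')
          simp only [quo] at htt
          rw [div_eq_div_iff h1 h2] at htt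
          have h3 : (t - t') * (π - ρ) = 0 := by linear_combination htt
          rcases mul_eq_zero.1 h3 with h4 | h4
          · exact sub_eq_zero.1 h4
          · exact absurd (by rw [sub_eq_zero.1 h4]) hpp
    · intro t ht
      obtain ⟨ht1, ht2⟩ := Finset.mem_filter.1 ht
      have hw : ∑ v ∈ S t p ∪ S t p', ell v ≤ 2 / r * W := by
        have h3 := Finset.sum_union_inter (s₁ := S t p) (s₂ := S t p') (f := fun v => ell v)
        have h4 : 0 ≤ ∑ v ∈ S t p ∩ S t p', ell v := Finset.sum_nonneg fun v _ => (ell_pos v).le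
        linarith
      have hin : ∀ w, w ∉ bad F G D s → Close (fv w) t p ∨ Close (fv w) t p' →
          w ∈ S t p ∪ S t p' := by
        intro w hw hc
        rw [Finset.mem_union, hS]
        rcases hc with hc | hc
        · exact Or.inl (Finset.mem_filter.2 ⟨mem_wa.2 ((hgood w hw).1 t ht1 p hp hc), hw, hc⟩)
        · exact Or.inr (Finset.mem_filter.2 ⟨mem_wa.2 ((hgood w hw).1 t ht1 p' hp' hc), hw, hc⟩)
      cases p with
      | none =>
        cases p' with
        | none => exact absurd rfl hpp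
        | some ρ =>
          have h1 := hnz t ht1 ρ (mem_some hG0 hp')
          refine ⟨h1, ?_, hw, fun w hwb hne => hin w hwb ?_⟩
          · have h2 := hsub t ht1 ρ (mem_some hG0 hp')
            show logHeight₁ (t - ρ) ≤ _
            linarith [zero_le_logHeight₁ (t - ρ)]
          · exact (one_cases (fv_Na w) ((hgood w hwb).2.2 ρ hp') hne).symm
      | some π =>
        have h1 := hnz t ht1 π (mem_some hG0 hp)
        cases p' with
        | none =>
          refine ⟨h1, ?_, hw, fun w hwb hne => hin w hwb ?_⟩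
          · have h2 := hsub t ht1 π (mem_some hG0 hp)
            show logHeight₁ (t - π) ≤ _
            linarith [zero_le_logHeight₁ (t - π)]
          · exact one_cases (fv_Na w) ((hgood w hwb).2.2 π hp) hne
        | some ρ =>
          have h2 := hnz t ht1 ρ (mem_some hG0 hp')
          refine ⟨div_ne_zero h1 h2, ?_, hw, fun w hwb hne => hin w hwb ?_⟩
          · show logHeight₁ ((t - π) / (t - ρ)) ≤ _
            rw [div_eq_mul_inv]
            refine (logHeight₁_mul_le _ _).trans ?_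
            rw [logHeight₁_inv']
            have := hsub t ht1 π (mem_some hG0 hp)
            have := hsub t ht1 ρ (mem_some hG0 hp')
            linarith
          · exact quot_cases (fv_Na w) ((hgood w hwb).2.2 π hp) ((hgood w hwb).2.2 ρ hp') h1 h2 hne
    · apply Real.exp_le_exp.2
      have h1 := mul_le_mul_of_nonneg_left nb hδ.le
      have h2 : δ * (20 * q ^ 4 * (x + h + Module.finrank ℚ L)) =
          ε * (x + h + Module.finrank ℚ L) := by rw [← mul_assoc, hδε]
      rw [h2] at h1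
      have h3 := mul_le_mul_of_nonneg_right hδ1 hr0
      linarith
  -- all pairs
  have hcover : E ⊆ (ratPoles F G).offDiag.biUnion fun p =>
      E.filter fun t => ∑ v ∈ S t p.1, ell v + ∑ v ∈ S t p.2, ell v ≤ 2 / r * W := by
    intro t ht
    obtain ⟨p, hp, p', hp', hpp, hle⟩ := two_small (ratPoles F G) (by rw [← hr]; exact hpoles)
      (fun p => ∑ v ∈ S t p, ell v) ((hSsum t).trans (hE t ht).2.2)
    rw [← hr] at hle
    exact Finset.mem_biUnion.2 ⟨(p, p'), Finset.mem_offDiag.2 ⟨hp, hp', hpp⟩,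
      Finset.mem_filter.2 ⟨ht, hle⟩⟩
  have hcard1 : (E.card : ℝ) ≤ ∑ p ∈ (ratPoles F G).offDiag,
      Real.exp (Module.finrank ℚ L * (A + ε) + (1 + ε) * (2 / r * W) + ε * (x + h)) := by
    have h1 := (Finset.card_le_card hcover).trans Finset.card_biUnion_le
    have h2 : (E.card : ℝ) ≤ ∑ p ∈ (ratPoles F G).offDiag, ((E.filter fun t =>
      ∑ v ∈ S t p.1, ell v + ∑ v ∈ S t p.2, ell v ≤ 2 / r * W).card : ℝ) := by exact_mod_cast h1
    refine h2.trans (Finset.sum_le_sum fun p hp => ?_)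
    obtain ⟨h3, h4, h5⟩ := Finset.mem_offDiag.1 hp
    exact hpair p.1 h3 p.2 h4 h5
  refine hcard1.trans ?_
  rw [Finset.sum_const, nsmul_eq_mul]
  have hoff : (((ratPoles F G).offDiag).card : ℝ) ≤ Real.exp (2 * Real.log q) := by
    have h1 : ((ratPoles F G).offDiag).card ≤ (D + 1) * (D + 1) := by
      rw [Finset.offDiag_card, ← hr]
      exact (Nat.sub_le _ _).trans (Nat.mul_le_mul hrD hrD)
    have h2 : (((ratPoles F G).offDiag).card : ℝ) ≤ q * q := by
      rw [hqd]
      exact_mod_cast h1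
    refine h2.trans (le_of_eq ?_)
    rw [two_mul, Real.exp_add, Real.exp_log (by linarith)]
  refine (mul_le_mul_of_nonneg_right hoff (Real.exp_pos _).le).trans ?_
  rw [← Real.exp_add]
  apply Real.exp_le_exp.2
  have h1 : 0 ≤ Real.log q := Real.log_nonneg hq
  have h2 : 2 * Real.log q ≤ Module.finrank ℚ L * (2 * Real.log q) :=
    le_mul_of_one_le_left (by positivity) hn1
  linarith

end Pool.Agent.Q158.F2P
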