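import Mathlib
import Pool.Agent.Q158.F2P.Frey
import Pool.Agent.Q158.F2P.Rat

/-!
# Few exceptional parameters in families with two poles
-/

set_option autoImplicit false
set_option linter.unusedSectionVars false

namespace Pool.Agent.Q158.F2P

open NumberField IsDedekindDomain Polynomial Pool.Agent.H691R3 Pool.Agent.W223.AK
open Height (logHeight₁ zero_le_logHeight₁)
open Pool.Agent.Y733.FF
open Pool.Agent.TH876.FH (IsPeriod arch)
open Pool.Agent.Q237.LT (fa)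

open Classical in
/-- both counts -/
theorem fam_both (D : ℕ) {ε : ℝ} (hε : 0 < ε) : ∃ A : ℝ, 0 ≤ A ∧
    ∀ (L : Type) [Field L] [NumberField L] (F G : L[X]) (h : ℝ), F.natDegree ≤ D →
      G.natDegree ≤ D → IsCoprime F G → G ≠ 0 → TwoPoles F G →
      (∀ i, logHeight₁ (F.coeff i) ≤ h) → (∀ i, logHeight₁ (G.coeff i) ≤ h) →
      ∀ (x W : ℝ) (E : Finset L), (∀ t ∈ E, logHeight₁ t ≤ x ∧ G.eval t ≠ 0 ∧
        fa (F.eval t / G.eval t) ≤ W) →
      (E.card : ℝ) ≤ Real.exp (Module.finrank ℚ L * A + (1 + ε) *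
        (2 / (max 2 (ratPoles F G).card : ℕ) * W) + ε * (x + h)) := by
  obtain ⟨A1, hA1, h1⟩ := fam_two D hε
  obtain ⟨A2, hA2, h2⟩ := fam_rat D hε
  refine ⟨A1 + A2, by positivity, ?_⟩
  intro L _ _ F G h hFD hGD hcop hG0 hpoles hFh hGh x W E hE
  have hn : (0 : ℝ) ≤ Module.finrank ℚ L := Nat.cast_nonneg _
  rcases le_or_gt (ratPoles F G).card 2 with hr | hr
  · rw [max_eq_left hr]
    refine (h1 L F G h hFD hGD hcop hG0 hpoles hFh hGh x W E hE).trans (Real.exp_le_exp.2 ?_)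
    push_cast
    have := mul_nonneg hn hA2
    have e : (2 : ℝ) / 2 * W = W := by ring
    rw [e]
    linarith
  · rw [max_eq_right hr.le]
    refine (h2 L F G h hFD hGD hcop hG0 hr.le hFh hGh x W E hE).trans (Real.exp_le_exp.2 ?_)
    have := mul_nonneg hn hA1
    linarith

/-- the parameters for which `j` has few poles in comparison with its height -/
theorem few_poles (D : ℕ) {ε c : ℝ} (hε : 0 < ε) (hc : 0 ≤ c) : ∃ C : ℝ, 0 ≤ C ∧
    ∀ (A : ℝ), 1 ≤ A → ∀ (L : Type) [Field L] [NumberField L] (F G : L[X]) (h : ℝ),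
      F.natDegree ≤ D → G.natDegree ≤ D → IsCoprime F G → G ≠ 0 → TwoPoles F G →
      (∀ i, logHeight₁ (F.coeff i) ≤ h) → (∀ i, logHeight₁ (G.coeff i) ≤ h) →
      ∀ (x : ℝ) (E : Finset L), (∀ t ∈ E, logHeight₁ t ≤ x ∧ G.eval t ≠ 0 ∧
        A * fa (F.eval t / G.eval t) ≤ logHeight₁ (F.eval t / G.eval t) +
          (c + A * c) * Module.finrank ℚ L) →
      (E.card : ℝ) ≤ Real.exp (Module.finrank ℚ L * C +
        2 / (max 2 (ratPoles F G).card : ℕ) * ((D * x + (2 * D + 2) * h) / A) + ε * (x + h)) := by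
  have hD0 : (0 : ℝ) ≤ D := Nat.cast_nonneg D
  obtain ⟨δ, hδd⟩ : ∃ δ : ℝ, δ = min 1 (ε / (2 * D + 3)) := ⟨_, rfl⟩
  have hδ : 0 < δ := by rw [hδd]; positivity
  have hδ1 : δ ≤ 1 := by rw [hδd]; exact min_le_left _ _
  have hδε : δ * (2 * D + 3) ≤ ε := by
    have h1 : δ ≤ ε / (2 * D + 3) := by rw [hδd]; exact min_le_right _ _
    rwa [le_div_iff₀ (by positivity)] at h1
  obtain ⟨A₀, hA₀, hmain⟩ := fam_both D hδ
  have hl0 : 0 ≤ Real.log (D + 1) := Real.log_nonneg (by linarith)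
  refine ⟨A₀ + 2 * (Real.log (D + 1) + 2 * c), by positivity, ?_⟩
  intro A hA L _ _ F G h hFD hGD hcop hG0 hpoles hFh hGh x E hE
  rcases E.eq_empty_or_nonempty with rfl | ⟨t₁, ht₁⟩
  · simp only [Finset.card_empty, Nat.cast_zero]
    positivity
  have hx : 0 ≤ x := (zero_le_logHeight₁ t₁).trans (hE t₁ ht₁).1
  have hh : 0 ≤ h := (zero_le_logHeight₁ _).trans (hFh 0)
  have hn : (0 : ℝ) ≤ Module.finrank ℚ L := Nat.cast_nonneg _
  have hA0 : 0 < A := by linarith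
  obtain ⟨T, hT⟩ : ∃ T : ℝ, T = D * x + (2 * D + 2) * h := ⟨_, rfl⟩
  have hT0 : 0 ≤ T := by rw [hT]; positivity
  obtain ⟨W, hW⟩ : ∃ W : ℝ, W = T / A + (Real.log (D + 1) + 2 * c) * Module.finrank ℚ L := ⟨_, rfl⟩
  obtain ⟨e, he⟩ : ∃ e : ℝ, e = 2 / (max 2 (ratPoles F G).card : ℕ) := ⟨_, rfl⟩
  have he0 : 0 ≤ e := by rw [he]; positivity
  have he1 : e ≤ 1 := by
    rw [he]
    have h2 : (2 : ℝ) ≤ (max 2 (ratPoles F G).card : ℕ) := by
      exact_mod_cast le_max_left 2 (ratPoles F G).card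
    rw [div_le_one (by linarith)]
    exact h2
  have hE' : ∀ t ∈ E, logHeight₁ t ≤ x ∧ G.eval t ≠ 0 ∧ fa (F.eval t / G.eval t) ≤ W := by
    intro t ht
    obtain ⟨h1, h2, h3⟩ := hE t ht
    refine ⟨h1, h2, ?_⟩
    have h4 := ht_ratio D F G hFD hGD hFh hGh t h2
    have h5 : (D : ℝ) * logHeight₁ t ≤ D * x := mul_le_mul_of_nonneg_left h1 hD0
    have h6 : A * fa (F.eval t / G.eval t) ≤ T + (Real.log (D + 1) + (c + A * c)) *
        Module.finrank ℚ L := by
      rw [hT]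
      linarith
    have h7 : fa (F.eval t / G.eval t) ≤ (T + (Real.log (D + 1) + (c + A * c)) *
        Module.finrank ℚ L) / A := by
      rw [le_div_iff₀ hA0]
      linarith
    refine h7.trans ?_
    rw [hW, add_div]
    have h8 : (Real.log (D + 1) + (c + A * c)) * Module.finrank ℚ L / A ≤
        (Real.log (D + 1) + 2 * c) * Module.finrank ℚ L := by
      rw [div_le_iff₀ hA0]
      have h9 : Real.log (D + 1) + (c + A * c) ≤ (Real.log (D + 1) + 2 * c) * A := by nlinarith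
      have h10 := mul_le_mul_of_nonneg_right h9 hn
      linarith
    linarith
  refine (hmain L F G h hFD hGD hcop hG0 hpoles hFh hGh x W E hE').trans (Real.exp_le_exp.2 ?_)
  rw [← he, ← hT, hW]
  have hTA : T / A ≤ T := div_le_self hT0 hA
  have hTA0 : 0 ≤ T / A := by positivity
  have h1 : δ * (e * (T / A)) ≤ δ * T := by
    refine mul_le_mul_of_nonneg_left ?_ hδ.le
    exact (mul_le_of_le_one_left hTA0 he1).trans hTA
  have h2 : δ * T ≤ δ * ((2 * D + 2) * (x + h)) := by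
    refine mul_le_mul_of_nonneg_left ?_ hδ.le
    rw [hT]
    nlinarith
  have h3 : δ * ((2 * D + 2) * (x + h)) + δ * (x + h) ≤ ε * (x + h) := by
    have := mul_le_mul_of_nonneg_right hδε (by positivity : 0 ≤ x + h)
    linarith
  have h4 : (1 + δ) * (e * ((Real.log (D + 1) + 2 * c) * Module.finrank ℚ L)) ≤
      2 * ((Real.log (D + 1) + 2 * c) * Module.finrank ℚ L) := by
    have h5 : 0 ≤ (Real.log (D + 1) + 2 * c) * Module.finrank ℚ L := by positivity
    have h6 : (1 + δ) * e ≤ 2 := by nlinarith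
    have := mul_le_mul_of_nonneg_right h6 h5
    linarith
  have h5 : (1 + δ) * (e * (T / A + (Real.log (D + 1) + 2 * c) * Module.finrank ℚ L)) =
      e * (T / A) + δ * (e * (T / A)) +
        (1 + δ) * (e * ((Real.log (D + 1) + 2 * c) * Module.finrank ℚ L)) := by ring
  rw [h5]
  linarith

/-- **Few exceptional parameters.** -/
theorem main (D : ℕ) {ε : ℝ} (hε : 0 < ε) : ∃ C : ℝ, 0 ≤ C ∧
    ∀ (A : ℝ), 4 ≤ A → ∀ (L : Type) [Field L] [NumberField L] (F G : L[X]) (h : ℝ),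
      F.natDegree ≤ D → G.natDegree ≤ D → IsCoprime F G → G ≠ 0 → TwoPoles F G →
      (∀ i, logHeight₁ (F.coeff i) ≤ h) → (∀ i, logHeight₁ (G.coeff i) ≤ h) →
      ∀ (x : ℝ) (E : Finset L), (∀ t ∈ E, logHeight₁ t ≤ x ∧ G.eval t ≠ 0 ∧
        ∃ (W : WeierstrassCurve L) (τ : InfinitePlace L → UpperHalfPlane), W.Δ ≠ 0 ∧
          W.c₄ ^ 3 / W.Δ = F.eval t / G.eval t ∧ IsPeriod (F.eval t / G.eval t) τ ∧
          A * Real.log (multN W) + (A / 2 + 3) * Real.log (addN W) <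
            discSum W + ∑ w : InfinitePlace L, (w.mult : ℝ) * arch (τ w)) →
      (E.card : ℝ) ≤ Real.exp (Module.finrank ℚ L * C +
        2 / (max 2 (ratPoles F G).card : ℕ) * ((D * x + (2 * D + 2) * h) / A) + ε * (x + h)) := by
  obtain ⟨c, hc, hfrey⟩ := frey_pole
  have hl6 : 0 ≤ Real.log 6 := Real.log_nonneg (by norm_num)
  obtain ⟨C, hC, hmain⟩ := few_poles D hε (by positivity : 0 ≤ c + Real.log 6)
  refine ⟨C, hC, ?_⟩
  intro A hA L _ _ F G h hFD hGD hcop hG0 hpoles hFh hGh x E hE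
  refine hmain A (by linarith) L F G h hFD hGD hcop hG0 hpoles hFh hGh x E fun t ht => ?_
  obtain ⟨h1, h2, W, τ, h3, h4, h5, h6⟩ := hE t ht
  refine ⟨h1, h2, ?_⟩
  rw [← h4] at h5 ⊢
  have h7 := hfrey L W τ A h3 h5 hA
  have hn : (0 : ℝ) ≤ Module.finrank ℚ L := Nat.cast_nonneg _
  have h8 : (c + A * Real.log 6) * Module.finrank ℚ L ≤
      ((c + Real.log 6) + A * (c + Real.log 6)) * Module.finrank ℚ L := by
    refine mul_le_mul_of_nonneg_right ?_ hn
    nlinarith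
  linarith

end Pool.Agent.Q158.F2P
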