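import Pool.Agent.Y673.Cnt.UnifR
import Pool.Agent.Y733.UD.Ideals
import Pool.Agent.Y733.UD.Units

/-!
# Elements of bounded height supported in a given set of primes, uniformly over all number fields of
# all degrees

Following `Pool.Agent.Y673.Cnt.UnifR` (helper673) and `Pool.Agent.Y733.UD`, with explicit dependence
on the degree.
-/

set_option autoImplicit false

namespace Pool.Agent.Q158.F2P

open NumberField IsDedekindDomain Height Pool.Agent.H691R3 Pool.Agent.H951R3.V
open Pool.Agent.Y673.Loc Pool.Agent.Y673.Cnt Pool.Agent.W223.AK Pool.Agent.W52.AK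

theorem gR_sum {η ε : ℝ} (hη : 0 < η) (hε : 0 < ε) : ∃ D : ℝ, 0 ≤ D ∧
    ∀ (K : Type) [Field K] [NumberField K] (R : Finset (Pr K)) (s : Finset (Pr K × ℕ)),
      ∑ u ∈ s, gR η R u ≤ Module.finrank ℚ K * D + ε * ∑ v ∈ R, ell v := by
  classical
  obtain ⟨F, hF0, hF⟩ := Pool.Agent.Y733.UD.primes_sum 2 (by norm_num)
  set ρ : ℝ := Real.exp (-(η * Real.log 2)) with hρ
  have hlog : 0 < Real.log 2 := Real.log_pos (by norm_num)
  have hρ0 : 0 ≤ ρ := (Real.exp_pos _).le
  have hρ1 : ρ < 1 := by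
    rw [hρ, Real.exp_lt_one_iff]
    have := mul_pos hη hlog
    linarith
  have hgeo := summable_geometric_of_lt_one hρ0 hρ1
  set G : ℝ := ∑' m : ℕ, ρ ^ m with hG
  have hG1 : 1 ≤ G := by
    have := hgeo.sum_le_tsum {0} (fun m _ => pow_nonneg hρ0 m)
    simpa using this
  set M : ℝ := Real.exp (G / ε) with hM
  have hM0 : 0 < M := Real.exp_pos _
  refine ⟨G * (F * M ^ 2), by positivity, fun K _ _ R s => ?_⟩
  have h0 : ∀ u : Pr K × ℕ, gR η R u ≤ (if u.1 ∈ R then 1 else 0) * ρ ^ u.2 := by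
    intro u
    unfold gR
    split_ifs with hu hu1 hu1
    · positivity
    · simp
    · rw [one_mul, hρ, ← Real.exp_nat_mul]
      apply Real.exp_le_exp.2
      have h1 : Real.log 2 ≤ ell u.1 := log_two_le_log_Nv u.1
      have h2 : (0 : ℝ) ≤ u.2 := Nat.cast_nonneg _
      have h4 : η * (u.2 * Real.log 2) ≤ η * (u.2 * ell u.1) := by gcongr
      linarith
    · exact absurd (not_or.1 hu).2 (by simpa using hu1)
  have h1 : ∑ u ∈ s, gR η R u ≤ ∑ v ∈ R, G := by
    calc ∑ u ∈ s, gR η R u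
        ≤ ∑ u ∈ s, (if u.1 ∈ R then 1 else 0) * ρ ^ u.2 := Finset.sum_le_sum fun u _ => h0 u
      _ ≤ ∑ u ∈ (s.image Prod.fst ∪ R) ×ˢ s.image Prod.snd, (if u.1 ∈ R then 1 else 0) * ρ ^ u.2 := by
          refine Finset.sum_le_sum_of_subset_of_nonneg ?_ (fun u _ _ => by positivity)
          intro u hu
          exact Finset.mem_product.2 ⟨Finset.mem_union_left _ (Finset.mem_image_of_mem _ hu),
            Finset.mem_image_of_mem _ hu⟩
      _ = (∑ v ∈ s.image Prod.fst ∪ R, (if v ∈ R then (1 : ℝ) else 0)) *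
            ∑ m ∈ s.image Prod.snd, ρ ^ m := by
          rw [Finset.sum_product, Finset.sum_mul_sum]
      _ ≤ (∑ v ∈ s.image Prod.fst ∪ R, (if v ∈ R then (1 : ℝ) else 0)) * G := by
          refine mul_le_mul_of_nonneg_left (hgeo.sum_le_tsum _ fun m _ => pow_nonneg hρ0 m) ?_
          exact Finset.sum_nonneg fun v _ => by positivity
      _ = ∑ v ∈ R, G := by
          rw [Finset.sum_ite_mem, Finset.union_inter_cancel_right]
          simp
  refine h1.trans ?_
  have h2 : ∑ v ∈ R, G ≤ ∑ v ∈ R, (G * (M ^ 2 * (nm v : ℝ) ^ (-(2 : ℝ))) + ε * ell v) := by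
    refine Finset.sum_le_sum fun v _ => ?_
    have h3 : (0 : ℝ) < nm v := by
      have := two_le_nm v
      positivity
    have h5 : 0 ≤ ell v := (ell_pos v).le
    rcases le_or_gt M (nm v : ℝ) with h | h
    · have h4 : G / ε ≤ ell v := by
        have e : ell v = Real.log (nm v) := rfl
        rw [e]
        exact (Real.le_log_iff_exp_le h3).2 h
      have h6 : G ≤ ε * ell v := by
        rw [div_le_iff₀ hε] at h4
        linarith
      have h7 : 0 ≤ G * (M ^ 2 * (nm v : ℝ) ^ (-(2 : ℝ))) := by positivity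
      linarith
    · have h4 : 1 ≤ M ^ 2 * (nm v : ℝ) ^ (-(2 : ℝ)) := by
        rw [Real.rpow_neg h3.le, ← div_eq_mul_inv, le_div_iff₀ (by positivity), one_mul]
        have e : (nm v : ℝ) ^ (2 : ℝ) = (nm v : ℝ) ^ 2 := by
          rw [← Real.rpow_natCast]; norm_num
        rw [e]
        exact pow_le_pow_left₀ h3.le h.le 2
      have h6 : G * 1 ≤ G * (M ^ 2 * (nm v : ℝ) ^ (-(2 : ℝ))) := by gcongr
      have h7 : 0 ≤ ε * ell v := by positivity
      linarith
  refine h2.trans ?_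
  rw [Finset.sum_add_distrib, ← Finset.mul_sum, ← Finset.mul_sum, ← Finset.mul_sum]
  have h3 := hF K R
  have h4 : G * (M ^ 2 * ∑ v ∈ R, (nm v : ℝ) ^ (-(2 : ℝ))) ≤
      G * (M ^ 2 * (Module.finrank ℚ K * F)) := by
    gcongr
  nlinarith

/-- ideals supported on a given set -/
theorem idR_card {ε : ℝ} (hε : 0 < ε) : ∃ D : ℝ, 0 ≤ D ∧
    ∀ (K : Type) [Field K] [NumberField K] (R : Finset (Pr K)) (X : ℝ) (E : Finset (Idl K)),
        (∀ a ∈ E, a.support ⊆ R ∧ len a ≤ X) →
        (E.card : ℝ) ≤ Real.exp (Module.finrank ℚ K * D + ε * (X + ∑ v ∈ R, ell v)) := by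
  classical
  obtain ⟨D, hD, h⟩ := gR_sum hε hε
  refine ⟨D, hD, fun K _ _ R X E hE => ?_⟩
  have h1 := Pool.Agent.W52.AK.rankin (gR ε R) (gR_nonneg ε R) _ (h K R) E
  have h2 : (E.card : ℝ) ≤ ∑ a ∈ E, Real.exp (ε * X) * ∏ v ∈ a.support, gR ε R (v, a v) := by
    have h3 : (E.card : ℝ) = ∑ a ∈ E, (1 : ℝ) := by simp
    rw [h3]
    apply Finset.sum_le_sum
    intro a ha
    obtain ⟨h4, h5⟩ := hE a ha
    rw [gR_prod ε R a h4, ← Real.exp_add]
    apply Real.one_le_exp
    have h6 := mul_le_mul_of_nonneg_left h5 hε.le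
    linarith
  rw [← Finset.mul_sum] at h2
  refine h2.trans ((mul_le_mul_of_nonneg_left h1 (Real.exp_pos _).le).trans (le_of_eq ?_))
  rw [← Real.exp_add]
  congr 1
  ring

section one
variable {K : Type} [Field K] [NumberField K]

theorem sum_abs_arch {y : K} : ∑ w : InfinitePlace K, (w.mult : ℝ) * |Real.log (w y)| ≤
    2 * logHeight₁ y := by
  have h1 : ∑ w : InfinitePlace K, (w.mult : ℝ) * |Real.log (w y)| =
      ∑ w : InfinitePlace K, (w.mult : ℝ) * Real.posLog (w y) +
      ∑ w : InfinitePlace K, (w.mult : ℝ) * Real.posLog (w y⁻¹) := by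
    rw [← Finset.sum_add_distrib]
    refine Finset.sum_congr rfl fun w _ => ?_
    rw [← mul_add, map_inv₀]
    congr 1
    unfold Real.posLog
    rw [Real.log_inv]
    rcases le_total 0 (Real.log (w y)) with h | h
    · rw [abs_of_nonneg h, max_eq_right h, max_eq_left (by linarith), add_zero]
    · rw [abs_of_nonpos h, max_eq_left h, max_eq_right (by linarith), zero_add]
  have h2 : ∀ z : K, ∑ w : InfinitePlace K, (w.mult : ℝ) * Real.posLog (w z) ≤ logHeight₁ z := by
    intro z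
    rw [NumberField.logHeight₁_eq]
    have h1 : 0 ≤ ∑ᶠ w : FinitePlace K, Real.posLog (w z) :=
      finsum_nonneg fun w => Real.posLog_nonneg
    linarith
  have h3 := h2 y
  have h4 := h2 y⁻¹
  rw [logHeight₁_inv'] at h4
  linarith

theorem supp_zeros {u : K} (hu : u ≠ 0) {R : Finset (HeightOneSpectrum (𝓞 K))}
    (hR : ∀ v, v ∉ R → (adv K v).v u = 0) : (zeros u).support ⊆ R := by
  intro v hv
  by_contra hcon
  rw [Finsupp.mem_support_iff, zeros_apply hu, hR v hcon] at hv
  exact hv rfl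

end one

/-- **Elements of bounded height supported in a given set of primes.** -/
theorem ucntR {δ : ℝ} (hδ : 0 < δ) : ∃ A : ℝ, 0 ≤ A ∧
    ∀ (K : Type) [Field K] [NumberField K] (R : Finset (HeightOneSpectrum (𝓞 K))) (Y : ℝ), 0 ≤ Y →
      ∀ E : Finset K, (∀ u ∈ E, u ≠ 0 ∧ logHeight₁ u ≤ Y ∧ ∀ v, v ∉ R → (adv K v).v u = 0) →
      (E.card : ℝ) ≤ Real.exp (Module.finrank ℚ K * A + δ * (Y + ∑ v ∈ R, ell v)) := by
  classical
  obtain ⟨D1, hD1, h1⟩ := idR_card (ε := δ / 8) (by positivity)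
  obtain ⟨D2, hD2, h2⟩ := Pool.Agent.Y733.UD.units_card (ε := δ / 8) (by positivity)
  refine ⟨D1 + D1 + D2, by positivity, ?_⟩
  intro K _ _ R Y hY E hE
  set WR : ℝ := ∑ v ∈ R, ell v with hWR
  have hWR0 : 0 ≤ WR := Finset.sum_nonneg fun v _ => (ell_pos v).le
  set π : K → Idl K × Idl K := fun u => (zeros u, zeros u⁻¹) with hπ
  have hQ1 : ((E.image fun u => zeros u).card : ℝ) ≤
      Real.exp (Module.finrank ℚ K * D1 + δ / 8 * (2 * Y + WR)) := by
    refine h1 K R _ _ ?_
    intro t ht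
    obtain ⟨u, hu, rfl⟩ := Finset.mem_image.1 ht
    obtain ⟨hu0, huY, hR⟩ := hE u hu
    exact ⟨supp_zeros hu0 hR, (len_zeros hu0).trans (by linarith)⟩
  have hQ2 : ((E.image fun u => zeros u⁻¹).card : ℝ) ≤
      Real.exp (Module.finrank ℚ K * D1 + δ / 8 * (2 * Y + WR)) := by
    refine h1 K R _ _ ?_
    intro t ht
    obtain ⟨u, hu, rfl⟩ := Finset.mem_image.1 ht
    obtain ⟨hu0, huY, hR⟩ := hE u hu
    refine ⟨supp_zeros (inv_ne_zero hu0) fun v hv => ?_, (len_zeros (inv_ne_zero hu0)).trans ?_⟩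
    · rw [adv_inv hu0, hR v hv, neg_zero]
    · rw [logHeight₁_inv']
      linarith
  have hQ : ((E.image π).card : ℝ) ≤
      Real.exp (Module.finrank ℚ K * D1 + δ / 8 * (2 * Y + WR)) *
      Real.exp (Module.finrank ℚ K * D1 + δ / 8 * (2 * Y + WR)) := by
    have h5 : E.image π ⊆ (E.image fun u => zeros u) ×ˢ (E.image fun u => zeros u⁻¹) := by
      intro t ht
      obtain ⟨u, hu, rfl⟩ := Finset.mem_image.1 ht
      exact Finset.mem_product.2 ⟨Finset.mem_image_of_mem _ hu, Finset.mem_image_of_mem _ hu⟩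
    have h6 := Finset.card_le_card h5
    rw [Finset.card_product] at h6
    have h7 : ((E.image π).card : ℝ) ≤ (E.image fun u => zeros u).card *
      (E.image fun u => zeros u⁻¹).card := by exact_mod_cast h6
    exact h7.trans (mul_le_mul hQ1 hQ2 (Nat.cast_nonneg _) (Real.exp_pos _).le)
  have hfib : ∀ t ∈ E.image π, ((E.filter fun u => π u = t).card : ℝ) ≤
      Real.exp (Module.finrank ℚ K * D2 + δ / 8 * (4 * Y)) := by
    intro t ht
    obtain ⟨u₀, hu₀, rfl⟩ := Finset.mem_image.1 ht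
    obtain ⟨hu00, hu0Y, -⟩ := hE u₀ hu₀
    set G := E.filter fun u => π u = π u₀ with hG
    have hinj : Set.InjOn (fun u : K => u / u₀) (G : Set K) := by
      intro x _ y _ hxy
      exact (div_left_inj' hu00).1 hxy
    rw [← Finset.card_image_of_injOn hinj]
    refine h2 K _ _ ?_
    intro y hy
    obtain ⟨u, hu, rfl⟩ := Finset.mem_image.1 hy
    rw [hG, Finset.mem_filter] at hu
    obtain ⟨hu1, hu2⟩ := hu
    obtain ⟨hu0, huY, -⟩ := hE u hu1
    refine ⟨div_ne_zero hu0 hu00, ?_, ?_⟩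
    · intro v
      rw [fv_eq_one_iff v (div_ne_zero hu0 hu00)]
      have e1 := congrArg (fun a => a v) (congrArg Prod.fst hu2)
      have e2 := congrArg (fun a => a v) (congrArg Prod.snd hu2)
      simp only [hπ] at e1 e2
      rw [zeros_apply hu0, zeros_apply hu00] at e1
      rw [zeros_apply (inv_ne_zero hu0), zeros_apply (inv_ne_zero hu00), adv_inv hu0,
        adv_inv hu00] at e2
      have e3 := ((ZV.E_of_ne (w := adv K v) hu0).div (ZV.E_of_ne (w := adv K v) hu00)).2
      rw [e3]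
      omega
    · refine sum_abs_arch.trans ?_
      have h4 : logHeight₁ (u / u₀) ≤ logHeight₁ u + logHeight₁ u₀ := by
        rw [div_eq_mul_inv]
        refine (logHeight₁_mul_le _ _).trans ?_
        rw [logHeight₁_inv']
      linarith
  have hcard : (E.card : ℝ) = ∑ t ∈ E.image π, ((E.filter fun u => π u = t).card : ℝ) := by
    rw [Finset.card_eq_sum_card_image π E]
    push_cast
    rfl
  rw [hcard]
  calc ∑ t ∈ E.image π, ((E.filter fun x => π x = t).card : ℝ)
      ≤ ∑ _t ∈ E.image π, Real.exp (Module.finrank ℚ K * D2 + δ / 8 * (4 * Y)) :=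
        Finset.sum_le_sum hfib
    _ = ((E.image π).card : ℝ) * Real.exp (Module.finrank ℚ K * D2 + δ / 8 * (4 * Y)) := by
        rw [Finset.sum_const, nsmul_eq_mul]
    _ ≤ (Real.exp (Module.finrank ℚ K * D1 + δ / 8 * (2 * Y + WR)) *
      Real.exp (Module.finrank ℚ K * D1 + δ / 8 * (2 * Y + WR))) *
        Real.exp (Module.finrank ℚ K * D2 + δ / 8 * (4 * Y)) :=
        mul_le_mul_of_nonneg_right hQ (Real.exp_pos _).le
    _ ≤ _ := by
        rw [← Real.exp_add, ← Real.exp_add]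
        apply Real.exp_le_exp.2
        nlinarith

/-- sets of primes of bounded weight -/
theorem sets_card {ε : ℝ} (hε : 0 < ε) : ∃ F : ℝ, 0 ≤ F ∧
    ∀ (K : Type) [Field K] [NumberField K] (W : ℝ) (Q : Finset (Finset (Pr K))),
      (∀ S ∈ Q, ∑ v ∈ S, ell v ≤ W) →
      (Q.card : ℝ) ≤ Real.exp (Module.finrank ℚ K * F + (1 + ε) * W) := by
  classical
  obtain ⟨F, hF, h⟩ := Pool.Agent.Y733.UD.ideals_card hε
  refine ⟨F, hF, fun K _ _ W Q hQ => ?_⟩
  set g : Finset (Pr K) → Idl K := fun S => Finsupp.onFinset S (fun v => if v ∈ S then 1 else 0)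
    (fun v hv => by
      by_contra hcon
      exact hv (if_neg hcon)) with hg
  have hga : ∀ S v, g S v = if v ∈ S then 1 else 0 := fun S v => rfl
  have hgs : ∀ S, (g S).support = S := by
    intro S
    ext v
    rw [Finsupp.mem_support_iff, hga]
    simp
  have hinj : Function.Injective g := by
    intro S T hST
    rw [← hgs S, ← hgs T, hST]
  rw [← Finset.card_image_of_injective Q hinj]
  refine h K W _ ?_
  intro a ha
  obtain ⟨S, hS, rfl⟩ := Finset.mem_image.1 ha
  refine le_trans (le_of_eq ?_) (hQ S hS)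
  unfold len
  rw [hgs]
  refine Finset.sum_congr rfl fun v hv => ?_
  rw [hga, if_pos hv]
  push_cast
  rw [one_mul]
  rfl

end Pool.Agent.Q158.F2P
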